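import Pool.Agent.RegK.Kappa

open Filter Topology Complex MeasureTheory Set Matrix Metric
open scoped Real ENNReal ComplexOrder

namespace Pool.Agent.RegK

open Pool.Agent.RegJ

set_option linter.unusedSectionVars false

variable {m n : Type*} [Fintype m] [DecidableEq m] [Fintype n] [DecidableEq n]

/-- normalised Lebesgue measure on the circle is invariant under complex conjugation -/
lemma mp_conj : MeasurePreserving (starRingEnd ℂ) circleMeasure circleMeasure := by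
  have hcm : Measurable (circleMap 0 1) := (continuous_circleMap 0 1).measurable
  have hc : Measurable (starRingEnd ℂ) := Complex.continuous_conj.measurable
  refine ⟨hc, ?_⟩
  have h1 : MeasurePreserving (fun θ : ℝ => 2 * π - θ) volume volume :=
    Measure.measurePreserving_sub_left volume (2 * π)
  have h2 := h1.restrict_preimage (s := Ico 0 (2 * π)) measurableSet_Ico
  have h3 : (fun θ : ℝ => 2 * π - θ) ⁻¹' Ico 0 (2 * π) = Ioc 0 (2 * π) := by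
    ext θ
    simp only [mem_preimage, mem_Ico, mem_Ioc]
    constructor <;> rintro ⟨a, b⟩ <;> constructor <;> linarith
  rw [h3] at h2
  have h4 : (volume.restrict (Ico (0 : ℝ) (2 * π))) = volume.restrict (Ioc 0 (2 * π)) :=
    Measure.restrict_congr_set Ico_ae_eq_Ioc
  rw [h4] at h2
  unfold circleMeasure
  rw [Measure.map_smul]
  congr 1
  rw [Measure.map_map hc hcm]
  have h5 : (starRingEnd ℂ) ∘ (circleMap 0 1) = circleMap 0 1 ∘ fun θ : ℝ => 2 * π - θ := by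
    funext θ
    simp only [Function.comp, circleMap, zero_add, ofReal_one, one_mul]
    rw [← Complex.exp_conj, map_mul, Complex.conj_ofReal, Complex.conj_I]
    push_cast
    rw [sub_mul, Complex.exp_sub, Complex.exp_two_pi_mul_I, mul_neg, Complex.exp_neg, one_div]
  rw [h5, ← Measure.map_map hcm h1.measurable, h2.map_eq]

lemma ae_conj {p : ℂ → Prop} (h : ∀ᵐ ζ ∂circleMeasure, p ζ) :
    ∀ᵐ ζ ∂circleMeasure, p ((starRingEnd ℂ) ζ) :=
  mp_conj.quasiMeasurePreserving.ae h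

/-- the function `z ↦ F(conj z)*` -/
def tl {a b : Type*} (F : ℂ → Matrix a b ℂ) : ℂ → Matrix b a ℂ := fun z =>
  (F ((starRingEnd ℂ) z))ᴴ

lemma tl_tl {a b : Type*} (F : ℂ → Matrix a b ℂ) : tl (tl F) = F := by
  funext z
  simp [tl]

lemma conj_mem {z : ℂ} (hz : z ∈ disc) : (starRingEnd ℂ) z ∈ disc := by
  simpa using hz

lemma analyticAt_cc {f : ℂ → ℂ} {z : ℂ} (hf : AnalyticAt ℂ f ((starRingEnd ℂ) z)) :
    AnalyticAt ℂ (fun w => (starRingEnd ℂ) (f ((starRingEnd ℂ) w))) z := by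
  rw [analyticAt_iff_eventually_differentiableAt] at hf ⊢
  have hc : Tendsto (starRingEnd ℂ) (𝓝 z) (𝓝 ((starRingEnd ℂ) z)) :=
    Complex.continuous_conj.tendsto z
  filter_upwards [hc.eventually hf] with w hw
  exact differentiableAt_conj_conj_iff.2 hw

lemma analyticPt_tl {a b : Type*} {F : ℂ → Matrix a b ℂ} {z : ℂ}
    (hF : AnalyticPt F ((starRingEnd ℂ) z)) : AnalyticPt (tl F) z := fun i k =>
  analyticAt_cc (hF k i)

lemma analyticPt_of_tl {a b : Type*} {F : ℂ → Matrix a b ℂ} {z : ℂ}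
    (hF : AnalyticPt (tl F) z) : AnalyticPt F ((starRingEnd ℂ) z) := by
  have := analyticPt_tl (F := tl F) (z := (starRingEnd ℂ) z) (by simpa using hF)
  rwa [tl_tl] at this

lemma diff_tl {a b : Type*} {F : ℂ → Matrix a b ℂ}
    (hF : ∀ i k, DifferentiableOn ℂ (fun z => F z i k) disc) (i : b) (k : a) :
    DifferentiableOn ℂ (fun z => tl F z i k) disc :=
  analyticPt_iff.2 (fun z hz => analyticPt_tl (analyticPt_iff.1 hF _ (conj_mem hz))) i k

lemma bdry_tl {a b : Type*} {F : ℂ → Matrix a b ℂ} {ζ : ℂ} {L : Matrix a b ℂ}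
    (h : HasBdryValue F ((starRingEnd ℂ) ζ) L) : HasBdryValue (tl F) ζ Lᴴ := by
  unfold HasBdryValue at h ⊢
  have hc : Continuous fun M : Matrix a b ℂ => Mᴴ := continuous_id.matrix_conjTranspose
  refine ((hc.tendsto L).comp h).congr fun r => ?_
  simp only [Function.comp, tl, map_mul, Complex.conj_ofReal]

lemma boundedType_tl {a b : Type*} {F : ℂ → Matrix a b ℂ} (hF : BoundedType F) :
    BoundedType (tl F) := by
  obtain ⟨h, G, C, hd, hG, hb, ⟨z0, hz0, hne⟩, hW⟩ := hF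
  refine ⟨fun z => (starRingEnd ℂ) (h ((starRingEnd ℂ) z)), tl G, C, ?_, diff_tl hG, ?_,
    ⟨(starRingEnd ℂ) z0, conj_mem hz0, by simpa using hne⟩, ?_⟩
  · intro z hz
    have h1 : DifferentiableAt ℂ h ((starRingEnd ℂ) z) :=
      (hd.analyticAt (isOpen_ball.mem_nhds (conj_mem hz))).differentiableAt
    exact (differentiableAt_conj_conj_iff.2 h1).differentiableWithinAt
  · intro z hz
    obtain ⟨h1, h2⟩ := hb _ (conj_mem hz)
    refine ⟨by simpa using h1, fun i k => ?_⟩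
    simp only [tl, conjTranspose_apply, norm_star]
    exact h2 k i
  · intro z hz h0
    have h1 : h ((starRingEnd ℂ) z) ≠ 0 := by simpa using h0
    simp only [tl]
    rw [hW _ (conj_mem hz) h1, conjTranspose_smul]
    congr 1
    simp

/-- `A* j A ≤ j` implies `A j A* ≤ j` -/
lemma JC.star {A : Matrix (m ⊕ n) (m ⊕ n) ℂ} (hA : JC A) : JC Aᴴ := by
  have hd := hA.isUnit22
  set a := A.toBlocks₁₁ with ha
  set b := A.toBlocks₁₂ with hb
  set c := A.toBlocks₂₁ with hc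
  set d := A.toBlocks₂₂ with hdd
  let S : Matrix (m ⊕ n) (m ⊕ n) ℂ :=
    fromBlocks (a - b * d⁻¹ * c) (b * d⁻¹) (-(d⁻¹ * c)) d⁻¹
  have hS : ∀ v, nsq (S *ᵥ v) ≤ nsq v := by
    intro v
    set x := v ∘ Sum.inl with hx
    set y' := v ∘ Sum.inr with hy'
    have hv : v = Sum.elim x y' := (Sum.elim_comp_inl_inr v).symm
    set y := d⁻¹ *ᵥ (y' - c *ᵥ x) with hy
    have h1 := hA x y
    have e1 : A.toBlocks₂₁ *ᵥ x + A.toBlocks₂₂ *ᵥ y = y' := by
      rw [← hc, ← hdd, hy, mulVec_mulVec, mul_nonsing_inv _ hd, one_mulVec]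
      abel
    rw [e1] at h1
    rw [hv, mulVec_elim, nsq_elim, nsq_elim]
    simp only [S, toBlocks_fromBlocks₁₁, toBlocks_fromBlocks₁₂, toBlocks_fromBlocks₂₁,
      toBlocks_fromBlocks₂₂]
    have e2 : (a - b * d⁻¹ * c) *ᵥ x + (b * d⁻¹) *ᵥ y' =
        A.toBlocks₁₁ *ᵥ x + A.toBlocks₁₂ *ᵥ y := by
      rw [← ha, ← hb, hy, sub_mulVec, mulVec_mulVec, mulVec_sub, mulVec_mulVec]
      abel
    have e3 : (-(d⁻¹ * c)) *ᵥ x + d⁻¹ *ᵥ y' = y := by
      rw [hy, mulVec_sub, neg_mulVec, mulVec_mulVec]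
      abel
    rw [e2, e3]
    linarith
  have hS' := contr_star hS
  intro u w
  set w' := bᴴ *ᵥ u + dᴴ *ᵥ w with hw'
  have h2 := hS' (Sum.elim u (-w'))
  have hSs : Sᴴ = fromBlocks (a - b * d⁻¹ * c)ᴴ (-(d⁻¹ * c))ᴴ (b * d⁻¹)ᴴ (d⁻¹)ᴴ := by
    simp only [S, fromBlocks_conjTranspose]
  have hdi : (d⁻¹)ᴴ * dᴴ = 1 := by
    rw [← conjTranspose_mul, mul_nonsing_inv _ hd, conjTranspose_one]
  have e4 : (d⁻¹)ᴴ *ᵥ w' = ((d⁻¹)ᴴ * bᴴ) *ᵥ u + w := by
    rw [hw', mulVec_add, mulVec_mulVec, mulVec_mulVec, hdi, one_mulVec]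
  have e5 : (a - b * d⁻¹ * c)ᴴ *ᵥ u + (-(d⁻¹ * c))ᴴ *ᵥ (-w') = aᴴ *ᵥ u + cᴴ *ᵥ w := by
    rw [conjTranspose_sub, conjTranspose_mul, conjTranspose_mul, conjTranspose_neg,
      conjTranspose_mul, sub_mulVec, neg_mulVec, mulVec_neg, neg_neg, ← mulVec_mulVec _ cᴴ,
      ← mulVec_mulVec w' cᴴ, e4, mulVec_add]
    abel
  have e6 : (b * d⁻¹)ᴴ *ᵥ u + (d⁻¹)ᴴ *ᵥ (-w') = -w := by
    rw [conjTranspose_mul, mulVec_neg, e4]
    abel
  rw [hSs, mulVec_elim, nsq_elim, nsq_elim] at h2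
  simp only [toBlocks_fromBlocks₁₁, toBlocks_fromBlocks₁₂, toBlocks_fromBlocks₂₁,
      toBlocks_fromBlocks₂₂] at h2
  rw [e5, e6, nsq_neg, nsq_neg] at h2
  have f1 : Aᴴ.toBlocks₁₁ = aᴴ := rfl
  have f2 : Aᴴ.toBlocks₁₂ = cᴴ := rfl
  have f3 : Aᴴ.toBlocks₂₁ = bᴴ := rfl
  have f4 : Aᴴ.toBlocks₂₂ = dᴴ := rfl
  rw [f1, f2, f3, f4]
  linarith

lemma JU.star {A : Matrix (m ⊕ n) (m ⊕ n) ℂ} (hA : JU A) : JU Aᴴ := by
  have h1 : (sgnMat m n * Aᴴ * sgnMat m n) * A = 1 := by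
    unfold JU at hA
    calc (sgnMat m n * Aᴴ * sgnMat m n) * A = sgnMat m n * (Aᴴ * sgnMat m n * A) := by
          simp only [Matrix.mul_assoc]
      _ = 1 := by rw [hA, sgn_mul_sgn]
  have h2 : A * (sgnMat m n * Aᴴ * sgnMat m n) = 1 := mul_eq_one_comm.1 h1
  have h3 : A * sgnMat m n * Aᴴ = sgnMat m n := by
    calc A * sgnMat m n * Aᴴ = A * (sgnMat m n * Aᴴ * sgnMat m n) * sgnMat m n := by
          simp only [Matrix.mul_assoc, sgn_mul_sgn, Matrix.mul_one]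
      _ = sgnMat m n := by rw [h2, Matrix.one_mul]
  unfold JU
  rw [conjTranspose_conjTranspose]
  exact h3

/-- `W ↦ W(conj z)*` preserves `𝒰(p,q)` -/
theorem jInner_tl {W : ℂ → Matrix (m ⊕ n) (m ⊕ n) ℂ} (hW : JInner W) : JInner (tl W) := by
  refine ⟨boundedType_tl hW.boundedType, ?_, ?_, ?_⟩
  · obtain ⟨z, hz, ha, hd⟩ := hW.det_ne_zero
    refine ⟨(starRingEnd ℂ) z, conj_mem hz, analyticPt_tl (by simpa using ha), ?_⟩
    simp only [tl, Complex.conj_conj, det_conjTranspose]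
    simpa using hd
  · intro z hz hA
    exact (jc_iff _).2 (JC.star ((jc_iff _).1
      (hW.contractive _ (conj_mem hz) (analyticPt_of_tl hA))))
  · filter_upwards [ae_conj hW.boundary] with ζ hζ
    obtain ⟨L, hL, hLu⟩ := hζ
    exact ⟨Lᴴ, bdry_tl hL, JU.star hLu⟩

lemma isEta_tl {W : ℂ → Matrix (m ⊕ n) (m ⊕ n) ℂ} {g : ℂ → Matrix n m ℂ} (h : IsKappa W g) :
    IsEta (tl W) (tl g) := by
  refine ⟨fun i k => diff_tl h.1 i k, fun z hz hA => ?_⟩
  have h1 := h.2 _ (conj_mem hz) (analyticPt_of_tl hA)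
  have e1 : (tl W z).toBlocks₁₂ = ((W ((starRingEnd ℂ) z)).toBlocks₂₁)ᴴ := rfl
  have e2 : (tl W z).toBlocks₂₂ = ((W ((starRingEnd ℂ) z)).toBlocks₂₂)ᴴ := rfl
  rw [e1, e2, ← conjTranspose_nonsing_inv, ← conjTranspose_mul, ← h1]
  rfl

lemma isKappa_tl {W : ℂ → Matrix (m ⊕ n) (m ⊕ n) ℂ} {f : ℂ → Matrix m n ℂ} (h : IsEta W f) :
    IsKappa (tl W) (tl f) := by
  refine ⟨fun i k => diff_tl h.1 i k, fun z hz hA => ?_⟩
  have h1 := h.2 _ (conj_mem hz) (analyticPt_of_tl hA)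
  have e1 : (tl W z).toBlocks₂₁ = ((W ((starRingEnd ℂ) z)).toBlocks₁₂)ᴴ := rfl
  have e2 : (tl W z).toBlocks₂₂ = ((W ((starRingEnd ℂ) z)).toBlocks₂₂)ᴴ := rfl
  rw [e1, e2, ← conjTranspose_nonsing_inv, ← conjTranspose_mul, ← h1]
  rfl

lemma isSchur_tl {f : ℂ → Matrix m n ℂ} (h : IsSchur f) : IsSchur (tl f) := by
  refine ⟨fun i k => diff_tl h.1 i k, fun z hz => (one_sub_iff _).2 fun x => ?_⟩
  exact contr_star ((one_sub_iff _).1 (h.2 _ (conj_mem hz))) x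

lemma pseudo_tl {f : ℂ → Matrix m n ℂ} (h : HasPseudocontinuation f) :
    HasPseudocontinuation (tl f) := by
  obtain ⟨Φ, hΦ, hb⟩ := h
  refine ⟨tl Φ, boundedType_tl hΦ, ?_⟩
  filter_upwards [ae_conj hb] with ζ hζ
  obtain ⟨L, hL, hL'⟩ := hζ
  refine ⟨Lᴴ, bdry_tl hL, bdry_tl ?_⟩
  rwa [map_inv₀]

lemma logDet_tl {f : ℂ → Matrix m n ℂ} (h : LogDetIntegrable f) : LogDetIntegrable (tl f) := by
  obtain ⟨fb, hb, hne, hint⟩ := h
  have key : ∀ ζ, (1 - (fb ((starRingEnd ℂ) ζ))ᴴ * ((fb ((starRingEnd ℂ) ζ))ᴴ)ᴴ).det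
      = (1 - fb ((starRingEnd ℂ) ζ) * (fb ((starRingEnd ℂ) ζ))ᴴ).det := by
    intro ζ
    rw [conjTranspose_conjTranspose, det_one_sub_mul_comm]
  refine ⟨fun ζ => (fb ((starRingEnd ℂ) ζ))ᴴ, ?_, ?_, ?_⟩
  · filter_upwards [ae_conj hb] with ζ hζ
    exact bdry_tl hζ
  · filter_upwards [ae_conj hne] with ζ hζ
    rw [key]
    exact hζ
  · have h1 := mp_conj.integrable_comp_of_integrable hint
    refine h1.congr (Eventually.of_forall fun ζ => ?_)
    simp only [Function.comp]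
    rw [key]

/-- **Arov**, the form for `κ_W`. -/
theorem kappa_arov (g : ℂ → Matrix n m ℂ) :
    (∃ W : ℂ → Matrix (m ⊕ n) (m ⊕ n) ℂ, JInner W ∧ IsKappa W g) ↔
      IsSchur g ∧ HasPseudocontinuation g ∧ LogDetIntegrable g := by
  constructor
  · rintro ⟨W, hW, hg⟩
    obtain ⟨h1, h2, h3⟩ := arov_nec (jInner_tl hW) (isEta_tl hg)
    have e := tl_tl g
    exact ⟨e ▸ isSchur_tl h1, e ▸ pseudo_tl h2, e ▸ logDet_tl h3⟩
  · rintro ⟨h1, h2, h3⟩
    obtain ⟨W, hW, hf⟩ := arov_exists (isSchur_tl h1) (pseudo_tl h2) (logDet_tl h3)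
    refine ⟨tl W, jInner_tl hW, ?_⟩
    have := isKappa_tl hf
    rwa [tl_tl] at this

end Pool.Agent.RegK
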