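import Pool.Agent.RegJ.ArovConv

open Filter Topology Complex MeasureTheory Set Metric Matrix
open scoped Real ENNReal NNReal ComplexOrder

namespace Pool.Agent.RegK

open Pool.Agent.RegJ

lemma one_sub_ne {z : ℂ} (hz : z ∈ ball (0 : ℂ) 1) : (1 : ℂ) - z ≠ 0 := by
  intro h
  have : z = 1 := by linear_combination -h
  rw [this] at hz
  simp at hz

/-- `(1 - z)⁻¹` has an `L¹` Poisson majorant; a.e. `ζ ≠ 1` on the circle. -/
lemma maj_pole_aux : Maj (fun z => (1 - z)⁻¹) ∧ (∀ᵐ ζ ∂σ, (1 : ℂ) - ζ ≠ 0) ∧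
    ∃ g : ℂ → ℝ, Integrable g σ ∧ (∀ ζ, 0 ≤ g ζ) ∧
      ∀ᵐ ζ ∂σ, Real.posLog ‖((1 : ℂ) - ζ)⁻¹‖ ≤ g ζ := by
  have hd : DifferentiableOn ℂ (fun z : ℂ => (1 - z) / 2) (ball 0 1) := by fun_prop
  have hb : ∀ z ∈ ball (0 : ℂ) 1, ‖(1 - z) / 2‖ ≤ 1 := by
    intro z hz
    have hz' : ‖z‖ < 1 := by simpa using hz
    rw [norm_div]
    have := norm_sub_le (1 : ℂ) z
    rw [norm_one] at this
    rw [div_le_one (by norm_num)]
    simp only [Complex.norm_ofNat]
    linarith
  obtain ⟨g, -, hgi, hg0, hg⟩ := log_integrable hd hb ⟨0, by simp, by norm_num⟩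
  have hg' : ∀ᵐ ζ ∂σ, (1 : ℂ) - ζ ≠ 0 ∧ -Real.log ‖(1 - ζ) / 2‖ ≤ g ζ := by
    filter_upwards [hg] with ζ hζ
    obtain ⟨L, hL, hL0, hLg⟩ := hζ
    have h1 : HasBdryValue (fun z : ℂ => (1 - z) / 2) ζ ((1 - ζ) / 2) := by
      have hc : Continuous (fun r : ℝ => ((1 : ℂ) - (r : ℂ) * ζ) / 2) := by fun_prop
      have h2 := hc.tendsto 1
      simp only [Complex.ofReal_one, one_mul] at h2
      exact h2.mono_left nhdsWithin_le_nhds
    have h3 : L = (1 - ζ) / 2 := tendsto_nhds_unique hL h1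
    subst h3
    refine ⟨fun h => hL0 (by rw [h]; simp), hLg⟩
  -- `posLog ‖(1 - rζ)⁻¹‖ ≤ g ζ`
  have key : ∀ᵐ ζ ∂σ, ∀ r : ℝ, 0 ≤ r → r ≤ 1 → Real.posLog ‖((1 : ℂ) - r * ζ)⁻¹‖ ≤ g ζ := by
    filter_upwards [hg', ae_norm] with ζ hζ hn r hr0 hr1
    have hpos : 0 < ‖(1 - ζ) / 2‖ := by
      rw [norm_pos_iff]
      exact div_ne_zero hζ.1 (by norm_num)
    have h1 : ‖(1 - ζ) / 2‖ ≤ ‖(1 : ℂ) - r * ζ‖ := by
      have e1 : (1 : ℂ) - ζ = (1 - r * ζ) + ((r - 1 : ℝ) : ℂ) * ζ := by push_cast; ring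
      have e2 : ‖((r - 1 : ℝ) : ℂ) * ζ‖ = 1 - r := by
        rw [norm_mul, hn, mul_one, Complex.norm_real, Real.norm_eq_abs, abs_of_nonpos (by linarith)]
        ring
      have e3 : 1 - r ≤ ‖(1 : ℂ) - r * ζ‖ := by
        have := norm_sub_norm_le (1 : ℂ) (r * ζ)
        rw [norm_one, norm_mul, hn, mul_one, Complex.norm_real, Real.norm_eq_abs,
          abs_of_nonneg hr0] at this
        exact this
      have e4 : ‖(1 : ℂ) - ζ‖ ≤ ‖(1 : ℂ) - r * ζ‖ + (1 - r) := by
        rw [← e2]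
        conv_lhs => rw [e1]
        exact norm_add_le _ _
      rw [norm_div]
      simp only [Complex.norm_ofNat]
      linarith
    have h2 : ‖((1 : ℂ) - r * ζ)⁻¹‖ ≤ ‖(1 - ζ) / 2‖⁻¹ := by
      rw [norm_inv]
      exact inv_anti₀ hpos h1
    refine (Real.posLog_le_posLog (norm_nonneg _) h2).trans ?_
    rw [Real.posLog, Real.log_inv]
    exact max_le (hg0 ζ) hζ.2
  refine ⟨⟨g, hgi, hg0, fun z hz => ?_⟩, hg'.mono fun _ h => h.1, g, hgi, hg0, ?_⟩
  · have hz' : ‖z‖ < 1 := by simpa using hz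
    have hd1 : DifferentiableOn ℂ (fun z : ℂ => (1 - z)⁻¹) (ball 0 1) := by
      intro w hw
      exact ((differentiableAt_const _).sub differentiableAt_id).inv
        (one_sub_ne hw) |>.differentiableWithinAt
    have h1 : ∀ n, Real.posLog ‖(1 - (rad n : ℂ) * z)⁻¹‖ ≤ PI g z := by
      intro n
      refine (poissonIneq_posLog hd1 hz' (rad_pos n) (rad_lt n)).trans ?_
      refine PI_mono ?_ hgi ?_ hz'
      · exact integrable_of_continuousOn (continuousOn_posLog
          (continuousOn_dilate hd1.continuousOn (rad_pos n).le (rad_lt n)))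
      · filter_upwards [key] with ζ hζ
        exact hζ _ (rad_pos n).le (rad_lt n).le
    exact le_of_tendsto (tendsto_dilate (continuousOn_posLog hd1.continuousOn) hz)
      (Eventually.of_forall h1)
  · filter_upwards [key] with ζ hζ
    have := hζ 1 zero_le_one le_rfl
    simpa using this

/-- A function with an `L¹` Poisson majorant, of bounded type, with `log⁺` integrable boundary
values, is in the Smirnov class. -/
theorem smirnov_of_maj {h hb : ℂ → ℂ} (hd : DifferentiableOn ℂ h (ball 0 1)) (hm : Maj h)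
    (hq : ∃ (a b : ℂ → ℂ) (C : ℝ), DifferentiableOn ℂ a disc ∧ DifferentiableOn ℂ b disc ∧
      (∀ z ∈ disc, ‖a z‖ ≤ C ∧ ‖b z‖ ≤ C) ∧ (∃ z ∈ disc, b z ≠ 0) ∧
      ∀ z ∈ disc, b z * h z = a z)
    (hbv : ∀ᵐ ζ ∂σ, HasBdryValue h ζ (hb ζ)) {g : ℂ → ℝ} (hg : Integrable g σ)
    (hbg : ∀ᵐ ζ ∂σ, Real.posLog ‖hb ζ‖ ≤ g ζ) : Smirnov h := by
  let un : ℕ → ℂ → ℝ := fun n ζ => Real.posLog ‖h (rad n * ζ)‖
  have hunc : ∀ n, ContinuousOn (un n) (sphere 0 1) := fun n =>
    continuousOn_posLog (continuousOn_dilate hd.continuousOn (rad_pos n).le (rad_lt n))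
  have huni : ∀ n, Integrable (un n) σ := fun n => integrable_of_continuousOn (hunc n)
  let u : ℂ → ℝ := fun ζ => Real.posLog ‖hb ζ‖
  have hlim : ∀ᵐ ζ ∂σ, Tendsto (fun n => un n ζ) atTop (𝓝 (u ζ)) := by
    filter_upwards [hbv] with ζ hζ
    exact (Real.continuous_posLog.tendsto _).comp ((hζ.comp tendsto_rad).norm)
  have hum : AEStronglyMeasurable u σ :=
    aestronglyMeasurable_of_tendsto_ae _ (fun n => (huni n).aestronglyMeasurable) hlim
  have hu0 : ∀ ζ, 0 ≤ u ζ := fun ζ => Real.posLog_nonneg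
  have hui : Integrable u σ := by
    apply hg.mono' hum
    filter_upwards [hbg] with ζ hζ
    rw [Real.norm_eq_abs, abs_of_nonneg (hu0 ζ)]
    exact hζ
  have hmaj : ∀ z ∈ ball (0 : ℂ) 1, Real.posLog ‖h z‖ ≤ PI u z :=
    maj_bound hd hm hui (hbv.mono fun ζ hζ => ⟨hb ζ, hζ, le_rfl⟩)
  refine ⟨hd, hq, hb, hbv, le_antisymm ?_ ?_, ?_⟩
  · refine iSup₂_le fun r hr => ?_
    have hci : ContinuousOn (fun ζ : ℂ => Real.posLog ‖h (r * ζ)‖) (sphere 0 1) :=
      continuousOn_posLog (continuousOn_dilate hd.continuousOn hr.1 hr.2)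
    have hii := integrable_of_continuousOn hci
    have h1 : ∫ ζ, Real.posLog ‖h (r * ζ)‖ ∂σ ≤ ∫ ζ, u ζ ∂σ := by
      calc ∫ ζ, Real.posLog ‖h (r * ζ)‖ ∂σ ≤ ∫ ζ, |PI u (r * ζ)| ∂σ := by
            apply integral_mono_ae hii (integrable_PI_dilate hui hr.1 hr.2).norm
            filter_upwards [ae_norm] with ζ hζ
            exact (hmaj _ (by simpa using norm_dilate hr.1 hr.2 hζ)).trans (le_abs_self _)
        _ ≤ ∫ ζ, |u ζ| ∂σ := PI_contract hui hr.1 hr.2
        _ = ∫ ζ, u ζ ∂σ := integral_congr_ae (Eventually.of_forall fun ζ => abs_of_nonneg (hu0 ζ))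
    have e1 := ofReal_integral_eq_lintegral_ofReal hii
      (Eventually.of_forall fun _ => Real.posLog_nonneg)
    have e2 := ofReal_integral_eq_lintegral_ofReal hui (Eventually.of_forall hu0)
    calc ∫⁻ ζ, ENNReal.ofReal (Real.posLog ‖h (r * ζ)‖) ∂circleMeasure
        = ENNReal.ofReal (∫ ζ, Real.posLog ‖h (r * ζ)‖ ∂σ) := e1.symm
      _ ≤ ENNReal.ofReal (∫ ζ, u ζ ∂σ) := ENNReal.ofReal_le_ofReal h1
      _ = _ := e2
  · have hl : ∀ᵐ ζ ∂σ, ENNReal.ofReal (u ζ)
        = liminf (fun n => ENNReal.ofReal (un n ζ)) atTop := by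
      filter_upwards [hlim] with ζ hζ
      exact ((ENNReal.continuous_ofReal.tendsto _).comp hζ).liminf_eq.symm
    calc ∫⁻ ζ, ENNReal.ofReal (Real.posLog ‖hb ζ‖) ∂circleMeasure
        = ∫⁻ ζ, liminf (fun n => ENNReal.ofReal (un n ζ)) atTop ∂σ := lintegral_congr_ae hl
      _ ≤ liminf (fun n => ∫⁻ ζ, ENNReal.ofReal (un n ζ) ∂σ) atTop :=
          lintegral_liminf_le' fun n => (huni n).aestronglyMeasurable.aemeasurable.ennreal_ofReal
      _ ≤ _ := by
          refine (liminf_le_of_le ⟨0, Eventually.of_forall fun _ => bot_le⟩ ?_)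
          intro b hb'
          obtain ⟨n, hn⟩ := hb'.exists
          refine hn.trans ?_
          exact le_iSup₂_of_le (rad n) ⟨(rad_pos n).le, rad_lt n⟩ le_rfl
  · have e2 := ofReal_integral_eq_lintegral_ofReal hui (Eventually.of_forall hu0)
    have : ∫⁻ ζ, ENNReal.ofReal (Real.posLog ‖hb ζ‖) ∂circleMeasure
        = ENNReal.ofReal (∫ ζ, u ζ ∂σ) := e2.symm
    rw [this]
    exact ENNReal.ofReal_lt_top

/-- `α + β (1 + z)/(1 - z)` is in the Smirnov class. -/
theorem smirnov_pole (α β : ℂ) : Smirnov (fun z => α + β * ((1 + z) / (1 - z))) := by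
  obtain ⟨hM, hne, g, hgi, hg0, hgb⟩ := maj_pole_aux
  have hd : DifferentiableOn ℂ (fun z => α + β * ((1 + z) / (1 - z))) (ball 0 1) := by
    intro w hw
    refine DifferentiableAt.differentiableWithinAt ?_
    have h1 : DifferentiableAt ℂ (fun z : ℂ => (1 + z) / (1 - z)) w :=
      (by fun_prop : DifferentiableAt ℂ (fun z : ℂ => 1 + z) w).div
        (by fun_prop) (one_sub_ne hw)
    exact (h1.const_mul β).const_add α
  have hM' : Maj (fun z => α + β * ((1 + z) * (1 - z)⁻¹)) := by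
    refine (Maj.const α).add ((Maj.const β).mul (Maj.mul ?_ hM))
    exact Maj.of_bound (C := 2) fun z hz => by
      have hz' : ‖z‖ < 1 := by simpa using hz
      have := norm_add_le (1 : ℂ) z
      rw [norm_one] at this
      linarith
  have hM2 : Maj (fun z => α + β * ((1 + z) / (1 - z))) :=
    hM'.congr fun z _ => by rw [div_eq_mul_inv]
  refine smirnov_of_maj (hb := fun ζ => α + β * ((1 + ζ) / (1 - ζ)))
    (g := fun ζ => Real.posLog (2 * ‖β‖) + g ζ + (Real.posLog ‖α‖ + Real.log 2)) hd hM2 ?_ ?_ ?_ ?_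
  · refine ⟨fun z => α * (1 - z) + β * (1 + z), fun z => 1 - z, ‖α‖ * 2 + ‖β‖ * 2 + 2, by fun_prop,
      by fun_prop, fun z hz => ?_, ⟨0, by simp [disc], by norm_num⟩, fun z hz => ?_⟩
    · have hz' : ‖z‖ < 1 := by simpa [disc] using hz
      have h1 : ‖(1 : ℂ) - z‖ ≤ 2 := by
        have := norm_sub_le (1 : ℂ) z
        rw [norm_one] at this
        linarith
      have h2 : ‖(1 : ℂ) + z‖ ≤ 2 := by
        have := norm_add_le (1 : ℂ) z
        rw [norm_one] at this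
        linarith
      constructor
      · refine (norm_add_le _ _).trans ?_
        rw [norm_mul, norm_mul]
        have h3 := mul_le_mul_of_nonneg_left h1 (norm_nonneg α)
        have h4 := mul_le_mul_of_nonneg_left h2 (norm_nonneg β)
        linarith
      · have := norm_nonneg α
        have := norm_nonneg β
        linarith
    · have := one_sub_ne hz
      field_simp
  · filter_upwards [hne] with ζ hζ
    have hc : ContinuousAt (fun r : ℝ => α + β * ((1 + (r : ℂ) * ζ) / (1 - (r : ℂ) * ζ))) 1 := by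
      have h1 : ContinuousAt (fun r : ℝ => (1 : ℂ) + (r : ℂ) * ζ) 1 := by fun_prop
      have h2 : ContinuousAt (fun r : ℝ => (1 : ℂ) - (r : ℂ) * ζ) 1 := by fun_prop
      exact ((h1.div h2 (by simpa using hζ)).const_mul β).const_add α
    have h2 := hc.tendsto
    simp only [Complex.ofReal_one, one_mul] at h2
    exact h2.mono_left nhdsWithin_le_nhds
  · exact ((integrable_const _).add hgi).add (integrable_const _)
  · filter_upwards [hgb, ae_norm] with ζ hζ hn
    have h2 : ‖(1 : ℂ) + ζ‖ ≤ 2 := by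
      have := norm_add_le (1 : ℂ) ζ
      rw [norm_one] at this
      linarith
    have h3 : ‖β * ((1 + ζ) / (1 - ζ))‖ ≤ (2 * ‖β‖) * ‖((1 : ℂ) - ζ)⁻¹‖ := by
      rw [div_eq_mul_inv, norm_mul, norm_mul]
      have := norm_nonneg β
      have h4 := mul_le_mul_of_nonneg_right h2 (norm_nonneg ((1 : ℂ) - ζ)⁻¹)
      have h5 := mul_le_mul_of_nonneg_left h4 this
      linarith
    have h4 : Real.posLog ‖β * ((1 + ζ) / (1 - ζ))‖ ≤ Real.posLog (2 * ‖β‖) + g ζ := by
      refine (Real.posLog_le_posLog (norm_nonneg _) h3).trans ?_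
      refine Real.posLog_mul.trans ?_
      linarith
    have h5 := Real.posLog_norm_add_le (α) (β * ((1 + ζ) / (1 - ζ)))
    linarith

end Pool.Agent.RegK
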