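import Pool.Agent.RegK.Divisor
import Pool.Agent.RegK.Pole

open Filter Topology Complex MeasureTheory Set Metric Matrix
open scoped Real ENNReal NNReal ComplexOrder

namespace Pool.Agent.RegK

open Pool.Agent.RegJ

set_option linter.unusedSectionVars false

variable {m n : Type*} [Fintype m] [DecidableEq m] [Fintype n] [DecidableEq n]

/-- `(1 + z) / (1 - z)` -/
noncomputable def bz (z : ℂ) : ℂ := (1 + z) / (1 - z)

/-- the vector `e_i + e_k` -/
def cv (i : m) (k : n) : m ⊕ n → ℂ := Pi.single (Sum.inl i) 1 + Pi.single (Sum.inr k) 1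

/-- the vector `e_i - e_k` -/
def av (i : m) (k : n) : m ⊕ n → ℂ := Pi.single (Sum.inl i) 1 - Pi.single (Sum.inr k) 1

/-- the square zero matrix -/
def NN (i : m) (k : n) : Matrix (m ⊕ n) (m ⊕ n) ℂ := vecMulVec (av i k) (cv i k)

/-- the A-singular function of the example -/
noncomputable def SS (i : m) (k : n) (z : ℂ) : Matrix (m ⊕ n) (m ⊕ n) ℂ := 1 + (-bz z) • NN i k

lemma dot_ca (i : m) (k : n) : cv i k ⬝ᵥ av i k = 0 := by
  simp [cv, av, dotProduct_sub]

lemma NN_sq (i : m) (k : n) : NN i k * NN i k = 0 := by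
  rw [NN, vecMulVec_mul_vecMulVec, dot_ca]
  simp

lemma SS_mul (i : m) (k : n) (c : ℂ) :
    (1 + (-c) • NN i k) * (1 + c • NN i k) = (1 : Matrix (m ⊕ n) (m ⊕ n) ℂ) := by
  rw [Matrix.add_mul, Matrix.mul_add, Matrix.mul_add, smul_mul_smul_comm, NN_sq]
  simp

lemma SS_inv (i : m) (k : n) (z : ℂ) : (SS i k z)⁻¹ = 1 + bz z • NN i k :=
  inv_eq_right_inv (SS_mul i k (bz z))

lemma sgn_av (i : m) (k : n) : sgnMat m n *ᵥ av i k = cv i k := by
  ext x
  rcases x with x | x <;>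
  simp [sgnMat, av, cv, Pi.single_apply, mulVec_sub, Matrix.one_apply]

lemma sgn_NN (i : m) (k : n) : sgnMat m n * NN i k = vecMulVec (cv i k) (cv i k) := by
  rw [NN, Matrix.mul_vecMulVec, sgn_av]

lemma star_cv (i : m) (k : n) : star (cv i k) = cv i k := by
  ext x
  rcases x with x | x <;> simp [cv, Pi.single_apply] <;> split_ifs <;> simp

lemma NNH_sgn (i : m) (k : n) : (NN i k)ᴴ * sgnMat m n = vecMulVec (cv i k) (cv i k) := by
  have h : (sgnMat m n * NN i k)ᴴ = (NN i k)ᴴ * sgnMat m n := by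
    rw [conjTranspose_mul]
    congr 1
    simp [sgnMat, fromBlocks_conjTranspose]
  rw [← h, sgn_NN, conjTranspose_vecMulVec, star_cv]

lemma form_SS (i : m) (k : n) (c : ℂ) :
    sgnMat m n - (1 + (-c) • NN i k)ᴴ * sgnMat m n * (1 + (-c) • NN i k)
      = ((2 * c.re : ℝ) : ℂ) • vecMulVec (cv i k) (cv i k) := by
  have h0 : vecMulVec (cv i k) (cv i k) * NN i k = 0 := by
    rw [NN, vecMulVec_mul_vecMulVec, dot_ca]; simp
  rw [conjTranspose_add, conjTranspose_smul, conjTranspose_one, Matrix.add_mul, Matrix.one_mul,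
    Matrix.smul_mul, NNH_sgn, Matrix.add_mul, Matrix.mul_add, Matrix.mul_add, Matrix.mul_one,
    Matrix.mul_one, Matrix.mul_smul, sgn_NN, Matrix.smul_mul, Matrix.mul_smul, h0]
  have : ((2 * c.re : ℝ) : ℂ) = c + star c := by
    rw [Complex.star_def, Complex.add_conj]
  rw [this, add_smul, star_neg, neg_smul, neg_smul]
  simp only [smul_zero]
  abel

lemma bz_re {z : ℂ} (hz : (1 : ℂ) - z ≠ 0) :
    (bz z).re = (1 - ‖z‖ ^ 2) / ‖(1 : ℂ) - z‖ ^ 2 := by
  rw [bz, Complex.div_re, ← Complex.normSq_eq_norm_sq, ← Complex.normSq_eq_norm_sq,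
    ← add_div]
  congr 1
  simp [Complex.normSq_apply]
  ring

lemma bz_re_pos {z : ℂ} (hz : z ∈ disc) : 0 ≤ (bz z).re := by
  have hz' : ‖z‖ < 1 := by simpa [disc] using hz
  rw [bz_re (one_sub_ne hz)]
  have : ‖z‖ ^ 2 ≤ 1 := by
    have := norm_nonneg z
    nlinarith
  exact div_nonneg (by linarith) (by positivity)

lemma bz_re_zero {z : ℂ} (hz : ‖z‖ = 1) (h1 : (1 : ℂ) - z ≠ 0) : (bz z).re = 0 := by
  rw [bz_re h1, hz]; simp

lemma jInner_SS (i : m) (k : n) : JInner (SS i k : ℂ → Matrix (m ⊕ n) (m ⊕ n) ℂ) := by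
  obtain ⟨-, hne, -⟩ := maj_pole_aux
  have han : ∀ z ∈ disc, AnalyticPt (SS i k : ℂ → Matrix (m ⊕ n) (m ⊕ n) ℂ) z := by
    intro z hz x y
    have h1 := one_sub_ne hz
    simp only [SS, Matrix.add_apply, Matrix.smul_apply, smul_eq_mul, bz]
    fun_prop (disch := exact h1)
  constructor
  · refine ⟨fun z => 1 - z, fun z => (1 - z) • (1 : Matrix (m ⊕ n) (m ⊕ n) ℂ) + (-(1 + z)) • NN i k,
      2 + ∑ x, ∑ y, (2 * ‖(1 : Matrix (m ⊕ n) (m ⊕ n) ℂ) x y‖ + 2 * ‖NN i k x y‖), by fun_prop,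
      ?_, ?_, ⟨0, by simp [disc], by norm_num⟩, ?_⟩
    · intro x y
      simp only [Matrix.add_apply, Matrix.smul_apply, smul_eq_mul]
      fun_prop
    · intro z hz
      have hz' : ‖z‖ < 1 := by simpa [disc] using hz
      have h1 : ‖(1 : ℂ) - z‖ ≤ 2 := by
        have := norm_sub_le (1 : ℂ) z
        rw [norm_one] at this
        linarith
      have h2 : ‖-((1 : ℂ) + z)‖ ≤ 2 := by
        have := norm_add_le (1 : ℂ) z
        rw [norm_one] at this
        rw [norm_neg]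
        linarith
      have hnn : ∀ x y, 0 ≤ 2 * ‖(1 : Matrix (m ⊕ n) (m ⊕ n) ℂ) x y‖ + 2 * ‖NN i k x y‖ :=
        fun x y => by positivity
      constructor
      · have : 0 ≤ ∑ x, ∑ y, (2 * ‖(1 : Matrix (m ⊕ n) (m ⊕ n) ℂ) x y‖ + 2 * ‖NN i k x y‖) :=
          Finset.sum_nonneg fun x _ => Finset.sum_nonneg fun y _ => hnn x y
        linarith
      · intro x y
        simp only [Matrix.add_apply, Matrix.smul_apply, smul_eq_mul]
        have h3 : ‖(1 - z) * (1 : Matrix (m ⊕ n) (m ⊕ n) ℂ) x y + -(1 + z) * NN i k x y‖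
            ≤ 2 * ‖(1 : Matrix (m ⊕ n) (m ⊕ n) ℂ) x y‖ + 2 * ‖NN i k x y‖ := by
          refine (norm_add_le _ _).trans ?_
          rw [norm_mul, norm_mul]
          gcongr
        have h4 : 2 * ‖(1 : Matrix (m ⊕ n) (m ⊕ n) ℂ) x y‖ + 2 * ‖NN i k x y‖
            ≤ ∑ y, (2 * ‖(1 : Matrix (m ⊕ n) (m ⊕ n) ℂ) x y‖ + 2 * ‖NN i k x y‖) :=
          Finset.single_le_sum (f := fun y => 2 * ‖(1 : Matrix (m ⊕ n) (m ⊕ n) ℂ) x y‖
            + 2 * ‖NN i k x y‖) (fun y _ => hnn x y) (Finset.mem_univ y)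
        have h5 : ∑ y, (2 * ‖(1 : Matrix (m ⊕ n) (m ⊕ n) ℂ) x y‖ + 2 * ‖NN i k x y‖)
            ≤ ∑ x, ∑ y, (2 * ‖(1 : Matrix (m ⊕ n) (m ⊕ n) ℂ) x y‖ + 2 * ‖NN i k x y‖) :=
          Finset.single_le_sum (f := fun x => ∑ y, (2 * ‖(1 : Matrix (m ⊕ n) (m ⊕ n) ℂ) x y‖
            + 2 * ‖NN i k x y‖)) (fun x _ => Finset.sum_nonneg fun y _ => hnn x y)
            (Finset.mem_univ x)
        linarith
    · intro z hz h1
      simp only at h1 ⊢
      rw [SS, smul_add, smul_smul, smul_smul, inv_mul_cancel₀ h1, one_smul, bz]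
      congr 2
      field_simp
  · refine ⟨0, by simp [disc], han 0 (by simp [disc]), ?_⟩
    have h := SS_mul i k (bz 0)
    have h2 := congrArg Matrix.det h
    rw [det_mul, det_one] at h2
    exact left_ne_zero_of_mul_eq_one h2
  · intro z hz _
    rw [SS, form_SS]
    refine PosSemidef.smul ?_ ?_
    · have := posSemidef_vecMulVec_self_star (cv i k : m ⊕ n → ℂ)
      rwa [star_cv] at this
    · have := bz_re_pos hz
      rw [Complex.zero_le_real]
      linarith
  · filter_upwards [hne, ae_norm] with ζ h1 hn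
    refine ⟨SS i k ζ, ?_, ?_⟩
    · have hc : ContinuousAt (fun r : ℝ => (SS i k (r * ζ) : Matrix (m ⊕ n) (m ⊕ n) ℂ)) 1 := by
        have h2 : ContinuousAt (fun r : ℝ => (1 : ℂ) + (r : ℂ) * ζ) 1 := by fun_prop
        have h3 : ContinuousAt (fun r : ℝ => (1 : ℂ) - (r : ℂ) * ζ) 1 := by fun_prop
        have h4 : ContinuousAt (fun r : ℝ => bz (r * ζ)) 1 := h2.div h3 (by simpa using h1)
        exact continuousAt_const.add (h4.neg.smul continuousAt_const)
      have h2 := hc.tendsto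
      simp only [Complex.ofReal_one, one_mul] at h2
      exact h2.mono_left nhdsWithin_le_nhds
    · have h2 := form_SS i k (bz ζ) (m := m) (n := n)
      rw [bz_re_zero hn h1] at h2
      simp only [mul_zero, Complex.ofReal_zero, zero_smul] at h2
      exact (sub_eq_zero.1 h2).symm

theorem aSingular_SS (i : m) (k : n) :
    ASingular (SS i k : ℂ → Matrix (m ⊕ n) (m ⊕ n) ℂ) := by
  refine ⟨jInner_SS i k, fun x y => ?_, fun x y => ?_⟩
  · have := smirnov_pole ((1 : Matrix (m ⊕ n) (m ⊕ n) ℂ) x y) (-(NN i k x y))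
    convert this using 2 with z
    simp only [SS, Matrix.add_apply, Matrix.smul_apply, smul_eq_mul, bz]
    ring
  · have := smirnov_pole ((1 : Matrix (m ⊕ n) (m ⊕ n) ℂ) x y) (NN i k x y)
    convert this using 2 with z
    rw [SS_inv]
    simp only [Matrix.add_apply, Matrix.smul_apply, smul_eq_mul, bz]
    ring

lemma NN_inl (i : m) (k : n) : NN i k (Sum.inl i) (Sum.inl i) = 1 := by
  simp [NN, vecMulVec_apply, av, cv]

theorem not_const_SS (i : m) (k : n) :
    ¬ ∃ C, ∀ z ∈ disc, (SS i k z : Matrix (m ⊕ n) (m ⊕ n) ℂ) = C := by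
  rintro ⟨C, hC⟩
  have h0 := hC 0 (by simp [disc])
  have h1 := hC (1 / 2) (by simp [disc]; norm_num)
  have h2 := congrFun (congrFun (h0.trans h1.symm) (Sum.inl i)) (Sum.inl i)
  simp only [SS, Matrix.add_apply, Matrix.smul_apply, smul_eq_mul, bz, NN_inl] at h2
  norm_num at h2

/-- the function `((1 + z)/2) E_{ki}` -/
noncomputable def gg (i : m) (k : n) (z : ℂ) : Matrix n m ℂ := ((1 + z) / 2) • Matrix.single k i 1

lemma SS22 (i : m) (k : n) (z : ℂ) :
    (SS i k z : Matrix (m ⊕ n) (m ⊕ n) ℂ).toBlocks₂₂ = 1 + bz z • Matrix.single k k 1 := by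
  ext x y
  by_cases h1 : x = k
  · subst h1
    by_cases h2 : y = x
    · subst h2
      simp [SS, toBlocks₂₂, NN, vecMulVec_apply, av, cv]
    · have h3 : x ≠ y := fun h => h2 h.symm
      simp [SS, toBlocks₂₂, NN, vecMulVec_apply, av, cv, h2, h3]
  · have h3 : k ≠ x := fun h => h1 h.symm
    simp [SS, toBlocks₂₂, NN, vecMulVec_apply, av, cv, Matrix.one_apply, h1, h3]

lemma SS21 (i : m) (k : n) (z : ℂ) :
    (SS i k z : Matrix (m ⊕ n) (m ⊕ n) ℂ).toBlocks₂₁ = bz z • Matrix.single k i 1 := by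
  ext x y
  by_cases h1 : x = k
  · subst h1
    by_cases h2 : y = i
    · subst h2
      simp [SS, toBlocks₂₁, NN, vecMulVec_apply, av, cv]
    · have h3 : i ≠ y := fun h => h2 h.symm
      simp [SS, toBlocks₂₁, NN, vecMulVec_apply, av, cv, h2, h3]
  · have h3 : k ≠ x := fun h => h1 h.symm
    simp [SS, toBlocks₂₁, NN, vecMulVec_apply, av, cv, h1, h3]

theorem isKappa_SS (i : m) (k : n) :
    IsKappa (SS i k : ℂ → Matrix (m ⊕ n) (m ⊕ n) ℂ) (gg i k) := by
  refine ⟨fun x y => ?_, fun z hz _ => ?_⟩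
  · simp only [gg, Matrix.smul_apply, smul_eq_mul]
    fun_prop
  · have h1 := one_sub_ne hz
    have hb : 1 + bz z ≠ 0 := by
      have : 1 + bz z = 2 / (1 - z) := by rw [bz]; field_simp; ring
      rw [this]
      exact div_ne_zero (by norm_num) h1
    have hE : (Matrix.single k k 1 : Matrix n n ℂ) * Matrix.single k k 1 = Matrix.single k k 1 := by
      simp
    have hE2 : (Matrix.single k k 1 : Matrix n n ℂ) * (Matrix.single k i 1 : Matrix n m ℂ)
        = Matrix.single k i 1 := by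
      simp
    have hinv : ((1 : Matrix n n ℂ) + bz z • Matrix.single k k 1)
        * (1 + (-(bz z / (1 + bz z))) • Matrix.single k k 1) = 1 := by
      rw [Matrix.add_mul, Matrix.one_mul, Matrix.mul_add, Matrix.mul_one, smul_mul_smul_comm, hE]
      rw [add_assoc, ← add_smul, ← add_smul]
      have : -(bz z / (1 + bz z)) + (bz z + bz z * -(bz z / (1 + bz z))) = 0 := by
        field_simp
        ring
      rw [this, zero_smul, add_zero]
    have hdet : IsUnit ((1 : Matrix n n ℂ) + bz z • Matrix.single k k 1).det :=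
      Matrix.isUnit_det_of_right_inverse hinv
    rw [SS22, SS21]
    have hmul : ((1 : Matrix n n ℂ) + bz z • Matrix.single k k 1) * gg i k z
        = bz z • Matrix.single k i 1 := by
      rw [gg, Matrix.add_mul, Matrix.one_mul, Matrix.smul_mul, Matrix.mul_smul, hE2, smul_smul,
        ← add_smul]
      congr 1
      rw [bz]
      field_simp
      ring
    rw [← hmul, ← Matrix.mul_assoc, nonsing_inv_mul _ hdet, Matrix.one_mul]

end Pool.Agent.RegK
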