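import Pool.Agent.H2RJ.Crit
import Pool.Agent.RegK.Example
import Pool.Agent.RegK.Arov

open Filter Topology Complex MeasureTheory Set Metric Matrix
open scoped Real ENNReal NNReal ComplexOrder

namespace Pool.Agent.RegK

open Pool.Agent.RegJ

set_option linter.unusedSectionVars false

variable {m n : Type*} [Fintype m] [DecidableEq m] [Fintype n] [DecidableEq n]

/-- `I - G* G` is positive definite iff `‖G x‖ < ‖x‖` for all `x ≠ 0` -/
lemma posDef_iff (G : Matrix n m ℂ) :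
    (1 - Gᴴ * G).PosDef ↔ ∀ x, x ≠ 0 → nsq (G *ᵥ x) < nsq x := by
  have hH : (1 - Gᴴ * G).IsHermitian := by
    have : (Gᴴ * G).IsHermitian := isHermitian_conjTranspose_mul_self G
    exact isHermitian_one.sub this
  have key : ∀ x, star x ⬝ᵥ ((1 - Gᴴ * G) *ᵥ x) = ((nsq x - nsq (G *ᵥ x) : ℝ) : ℂ) := by
    intro x
    rw [sub_mulVec, one_mulVec, dotProduct_sub, ← mulVec_mulVec, star_dot_self, star_dot_conj,
      star_dot_self]
    push_cast
    ring
  constructor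
  · intro h x hx
    have h1 := h.dotProduct_mulVec_pos hx
    rw [key, Complex.zero_lt_real] at h1
    linarith
  · intro h
    refine PosDef.of_dotProduct_mulVec_pos hH fun x hx => ?_
    rw [key, Complex.zero_lt_real]
    linarith [h x hx]

lemma nsq_continuous : Continuous (fun x : m → ℂ => nsq x) := by
  unfold nsq
  fun_prop

/-- On the circle strict contractivity is uniform. -/
lemma uniform_strict {g : ℂ → Matrix n m ℂ} (hga : ∀ z : ℂ, ‖z‖ ≤ 1 → AnalyticPt g z)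
    (h : ∀ z : ℂ, ‖z‖ = 1 → ∀ x, x ≠ 0 → nsq (g z *ᵥ x) < nsq x) :
    ∃ ρ : ℝ, 0 ≤ ρ ∧ ρ < 1 ∧ ∀ z : ℂ, ‖z‖ = 1 → ∀ x, nsq (g z *ᵥ x) ≤ ρ ^ 2 * nsq x := by
  classical
  have hgc : ContinuousOn g (sphere 0 1) := by
    refine continuousOn_pi.2 fun i => continuousOn_pi.2 fun k => fun z hz => ?_
    have hz1 : ‖z‖ = 1 := by simpa using hz
    exact (hga z hz1.le i k).continuousAt.continuousWithinAt
  let K : Set (ℂ × (m → ℂ)) := sphere 0 1 ×ˢ {x | nsq x = 1}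
  have hKc : IsCompact K := by
    refine (isCompact_sphere _ _).prod ?_
    refine Metric.isCompact_of_isClosed_isBounded ?_ ?_
    · exact isClosed_eq nsq_continuous continuous_const
    · refine (Metric.isBounded_closedBall (x := (0 : m → ℂ)) (r := 1)).subset fun x hx => ?_
      rw [mem_closedBall_zero_iff, pi_norm_le_iff_of_nonneg zero_le_one]
      intro i
      have h1 := norm_sq_le_nsq x i
      rw [show nsq x = 1 from hx] at h1
      nlinarith [norm_nonneg (x i)]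
  have hf : ContinuousOn (fun y : ℂ × (m → ℂ) => nsq (g y.1 *ᵥ y.2)) K := by
    refine nsq_continuous.comp_continuousOn ?_
    have h1 : ContinuousOn (fun y : ℂ × (m → ℂ) => g y.1) K :=
      hgc.comp continuousOn_fst fun y hy => hy.1
    refine continuousOn_pi.2 fun i => ?_
    simp only [mulVec, dotProduct]
    refine continuousOn_finsetSum _ fun j _ => ?_
    have h2 : ContinuousOn (fun y : ℂ × (m → ℂ) => g y.1 i j) K :=
      (continuousOn_pi.1 (continuousOn_pi.1 h1 i)) j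
    have h3 : ContinuousOn (fun y : ℂ × (m → ℂ) => y.2 j) K := by fun_prop
    exact h2.mul h3
  by_cases hne : K.Nonempty
  · obtain ⟨y, hy, hmax⟩ := hKc.exists_isMaxOn hne hf
    have hy0 : y.2 ≠ 0 := by
      intro h0
      have h1 : nsq y.2 = 1 := hy.2
      rw [h0] at h1
      simp [nsq] at h1
    have hlt : nsq (g y.1 *ᵥ y.2) < 1 := by
      have := h y.1 (by simpa using hy.1) y.2 hy0
      rwa [show nsq y.2 = 1 from hy.2] at this
    refine ⟨Real.sqrt (nsq (g y.1 *ᵥ y.2)), Real.sqrt_nonneg _, ?_, fun z hz x => ?_⟩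
    · rw [Real.sqrt_lt' one_pos]; simpa using hlt
    · rw [Real.sq_sqrt (nsq_nonneg _)]
      by_cases hx : x = 0
      · subst hx; simp [nsq]
      · have hpos : 0 < nsq x := lt_of_le_of_ne (nsq_nonneg x) fun h => hx (nsq_eq_zero h.symm)
        set c : ℂ := (((Real.sqrt (nsq x))⁻¹ : ℝ) : ℂ) with hc
        have hcn : ‖c‖ ^ 2 = (nsq x)⁻¹ := by
          rw [hc, Complex.norm_real, Real.norm_eq_abs, sq_abs, inv_pow, Real.sq_sqrt hpos.le]
        have h1 : nsq (c • x) = 1 := by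
          rw [nsq_smul, hcn, inv_mul_cancel₀ hpos.ne']
        have h2 := hmax (a := (z, c • x)) ⟨by simpa using hz, h1⟩
        simp only [mem_ofPred_eq] at h2
        rw [mulVec_smul, nsq_smul, hcn, inv_mul_le_iff₀ hpos] at h2
        linarith
  · refine ⟨0, le_rfl, one_pos, fun z hz x => ?_⟩
    have hx : x = 0 := by
      by_contra hx
      apply hne
      have hpos : 0 < nsq x := lt_of_le_of_ne (nsq_nonneg x) fun h => hx (nsq_eq_zero h.symm)
      refine ⟨(1, (((Real.sqrt (nsq x))⁻¹ : ℝ) : ℂ) • x), by simp, ?_⟩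
      simp only [mem_ofPred_eq]
      rw [nsq_smul, Complex.norm_real, Real.norm_eq_abs, sq_abs, inv_pow, Real.sq_sqrt hpos.le,
        inv_mul_cancel₀ hpos.ne']
    subst hx
    simp [nsq]

/-- maximum principle: the bound on the circle holds in the disc -/
lemma strict_inside {g : ℂ → Matrix n m ℂ} (hga : ∀ z : ℂ, ‖z‖ ≤ 1 → AnalyticPt g z) {ρ : ℝ}
    (hρ : 0 ≤ ρ) (h : ∀ z : ℂ, ‖z‖ = 1 → ∀ x, nsq (g z *ᵥ x) ≤ ρ ^ 2 * nsq x) :
    ∀ z ∈ disc, ∀ x, nsq (g z *ᵥ x) ≤ ρ ^ 2 * nsq x := by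
  intro z₀ hz₀ x
  set w := g z₀ *ᵥ x with hw
  let F : ℂ → ℂ := fun z => star w ⬝ᵥ (g z *ᵥ x)
  have hFa : ∀ z : ℂ, ‖z‖ ≤ 1 → AnalyticAt ℂ F z := by
    intro z hz
    simp only [F, dotProduct, mulVec]
    refine Finset.analyticAt_fun_sum _ fun i _ => ?_
    refine analyticAt_const.mul ?_
    refine Finset.analyticAt_fun_sum _ fun k _ => ?_
    exact (hga z hz i k).mul analyticAt_const
  have hFd : DiffContOnCl ℂ F (ball 0 1) := by
    refine DifferentiableOn.diffContOnCl fun z hz => ?_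
    rw [closure_ball _ one_ne_zero] at hz
    exact (hFa z (by simpa using hz)).differentiableAt.differentiableWithinAt
  have hb : ∀ z ∈ frontier (ball (0 : ℂ) 1), ‖F z‖ ≤ Real.sqrt (nsq w * (ρ ^ 2 * nsq x)) := by
    intro z hz
    rw [frontier_ball _ one_ne_zero] at hz
    apply Real.le_sqrt_of_sq_le
    exact (cs w (g z *ᵥ x)).trans (mul_le_mul_of_nonneg_left (h z (by simpa using hz) x)
      (nsq_nonneg w))
  have h1 := Complex.norm_le_of_forall_mem_frontier_norm_le isBounded_ball hFd hb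
    (subset_closure hz₀)
  have h2 : F z₀ = (nsq w : ℂ) := star_dot_self w
  rw [h2, Complex.norm_real, Real.norm_eq_abs, abs_of_nonneg (nsq_nonneg w)] at h1
  have h3 : nsq w ^ 2 ≤ nsq w * (ρ ^ 2 * nsq x) := by
    have h4 : 0 ≤ nsq w * (ρ ^ 2 * nsq x) := mul_nonneg (nsq_nonneg w)
      (mul_nonneg (sq_nonneg ρ) (nsq_nonneg x))
    calc nsq w ^ 2 ≤ Real.sqrt (nsq w * (ρ ^ 2 * nsq x)) ^ 2 :=
          pow_le_pow_left₀ (nsq_nonneg w) h1 2
      _ = _ := Real.sq_sqrt h4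
  rcases (nsq_nonneg w).eq_or_lt with h5 | h5
  · rw [← h5]; exact mul_nonneg (sq_nonneg ρ) (nsq_nonneg x)
  · rw [sq] at h3
    exact le_of_mul_le_mul_left h3 h5

lemma bdry_of_analytic {g : ℂ → Matrix n m ℂ} {ζ : ℂ} (hζ : AnalyticPt g ζ) :
    HasBdryValue g ζ (g ζ) := by
  refine tendsto_pi_nhds.2 fun i => tendsto_pi_nhds.2 fun k => ?_
  have hc : ContinuousAt (fun w => g w i k) ζ := (hζ i k).continuousAt
  have h4 : Tendsto (fun r : ℝ => (r : ℂ) * ζ) (𝓝[<] 1) (𝓝 ζ) := by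
    have : Tendsto (fun r : ℝ => (r : ℂ) * ζ) (𝓝 1) (𝓝 ((1 : ℝ) * ζ)) := by
      have hc : Continuous (fun r : ℝ => (r : ℂ) * ζ) := by fun_prop
      exact hc.tendsto 1
    simp only [Complex.ofReal_one, one_mul] at this
    exact this.mono_left nhdsWithin_le_nhds
  exact hc.tendsto.comp h4

lemma logDet_of_strict {g : ℂ → Matrix n m ℂ} (hga : ∀ z : ℂ, ‖z‖ ≤ 1 → AnalyticPt g z)
    (h : ∀ z : ℂ, ‖z‖ = 1 → (1 - (g z)ᴴ * g z).PosDef) : LogDetIntegrable g := by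
  have hdet : ∀ z : ℂ, ‖z‖ = 1 → 0 < (1 - g z * (g z)ᴴ).det := by
    intro z hz
    have h1 := (h z hz).det_pos
    rwa [← det_one_sub_mul_comm] at h1
  refine ⟨g, ?_, ?_, ?_⟩
  · filter_upwards [ae_norm] with ζ hζ
    exact bdry_of_analytic (hga ζ hζ.le)
  · filter_upwards [ae_norm] with ζ hζ
    exact (hdet ζ hζ).ne'
  · apply integrable_of_continuousOn
    have hgc : ContinuousOn g (sphere 0 1) := by
      refine continuousOn_pi.2 fun i => continuousOn_pi.2 fun k => fun z hz => ?_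
      have hz1 : ‖z‖ = 1 := by simpa using hz
      exact (hga z hz1.le i k).continuousAt.continuousWithinAt
    have hc1 : Continuous (fun G : Matrix n m ℂ => (1 - G * Gᴴ).det.re) :=
      Complex.continuous_re.comp (Continuous.matrix_det (by fun_prop))
    refine ContinuousOn.log (hc1.comp_continuousOn hgc) fun z hz => ?_
    have hz1 : ‖z‖ = 1 := by simpa using hz
    have h2 := hdet z hz1
    have h3 := (Complex.lt_def.1 h2).1
    simp only [Complex.zero_re] at h3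
    exact h3.ne'

/-- first order contact at a boundary point of analyticity -/
lemma contact_bound {g : ℂ → Matrix n m ℂ} (hga : ∀ z : ℂ, ‖z‖ ≤ 1 → AnalyticPt g z) {ζ : ℂ}
    (hζ : ‖ζ‖ = 1) (x : m → ℂ) :
    ∃ C : ℝ, ∀ z ∈ disc, nsq (g z *ᵥ x + -(g ζ *ᵥ x)) ≤ C * ‖ζ - z‖ ^ 2 := by
  have hfa : ∀ i, ∀ z : ℂ, ‖z‖ ≤ 1 → AnalyticAt ℂ (fun z => (g z *ᵥ x) i) z := by
    intro i z hz
    simp only [dotProduct, mulVec]
    refine Finset.analyticAt_fun_sum _ fun k _ => ?_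
    exact (hga z hz i k).mul analyticAt_const
  have hC : ∀ i, ∃ C : ℝ, ∀ z ∈ closedBall (0 : ℂ) 1,
      ‖dslope (fun z => (g z *ᵥ x) i) ζ z‖ ≤ C := by
    intro i
    refine (isCompact_closedBall (0 : ℂ) 1).exists_bound_of_continuousOn fun z hz => ?_
    have hz1 : ‖z‖ ≤ 1 := by simpa using hz
    refine ContinuousAt.continuousWithinAt ?_
    by_cases hne : z = ζ
    · subst hne
      exact continuousAt_dslope_same.2 (hfa i z hz1).differentiableAt
    · exact (continuousAt_dslope_of_ne hne).2 (hfa i z hz1).continuousAt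
  choose C hC using hC
  refine ⟨∑ i, C i ^ 2, fun z hz => ?_⟩
  have hz1 : z ∈ closedBall (0 : ℂ) 1 := ball_subset_closedBall hz
  rw [nsq, Finset.sum_mul]
  refine Finset.sum_le_sum fun i _ => ?_
  have h1 : (g z *ᵥ x + -(g ζ *ᵥ x)) i = (z - ζ) • dslope (fun z => (g z *ᵥ x) i) ζ z := by
    rw [sub_smul_dslope]
    simp [sub_eq_add_neg]
  rw [h1, norm_smul, mul_pow, norm_sub_rev, mul_comm]
  have h2 := hC i z hz1
  have h3 : ‖dslope (fun z => (g z *ᵥ x) i) ζ z‖ ^ 2 ≤ C i ^ 2 :=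
    pow_le_pow_left₀ (norm_nonneg _) h2 2
  exact mul_le_mul_of_nonneg_right h3 (sq_nonneg _)

/-- the glue -/
theorem closed_iff_of
    (hA : ∀ {S : ℂ → Matrix (m ⊕ n) (m ⊕ n) ℂ} {g g' : ℂ → Matrix n m ℂ} {ρ : ℝ}, ASingular S →
      IsSchur g' → 0 ≤ ρ → ρ < 1 → (∀ i k, DifferentiableOn ℂ (fun z => g z i k) disc) →
      (∀ z ∈ disc, ∀ y, nsq (g z *ᵥ y) ≤ ρ ^ 2 * nsq y) →
      (∀ z ∈ disc, (g' z * (S z).toBlocks₁₂ + (S z).toBlocks₂₂) * g z
        = g' z * (S z).toBlocks₁₁ + (S z).toBlocks₂₁) → ∃ C, ∀ z ∈ disc, S z = C)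
    (hB : ∀ {g : ℂ → Matrix n m ℂ} {lam : ℂ} {x : m → ℂ} {y : n → ℂ} {C : ℝ}, ‖lam‖ = 1 →
      nsq x = 1 → nsq y = 1 → (∀ i k, DifferentiableOn ℂ (fun z => g z i k) disc) →
      (∀ z ∈ disc, nsq (g z *ᵥ x + y) ≤ C * ‖lam - z‖ ^ 2) →
      ¬ ∃ W : ℂ → Matrix (m ⊕ n) (m ⊕ n) ℂ, LeftRegular W ∧ IsKappa W g)
    {g : ℂ → Matrix n m ℂ} (hga : ∀ z : ℂ, ‖z‖ ≤ 1 → AnalyticPt g z) :
    (∃ W : ℂ → Matrix (m ⊕ n) (m ⊕ n) ℂ, LeftRegular W ∧ IsKappa W g) ↔
      HasPseudocontinuation g ∧ ∀ ζ : ℂ, ‖ζ‖ = 1 → (1 - (g ζ)ᴴ * g ζ).PosDef := by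
  have hgd : ∀ i k, DifferentiableOn ℂ (fun z => g z i k) disc := fun i k z hz => by
    have hz1 : ‖z‖ < 1 := by simpa [disc] using hz
    exact (hga z hz1.le i k).differentiableAt.differentiableWithinAt
  constructor
  · intro hW
    obtain ⟨hS, hP, -⟩ := (kappa_arov g).1 ⟨hW.choose, hW.choose_spec.1.jInner, hW.choose_spec.2⟩
    refine ⟨hP, fun ζ hζ => (posDef_iff _).2 fun x hx => ?_⟩
    by_contra hcon
    rw [not_lt] at hcon
    have hle : nsq (g ζ *ᵥ x) ≤ nsq x := by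
      have h1 : Tendsto (fun r : ℝ => nsq (g (r * ζ) *ᵥ x)) (𝓝[<] 1) (𝓝 (nsq (g ζ *ᵥ x))) :=
        tendsto_nsq (bdry_of_analytic (hga ζ hζ.le)) x
      apply le_of_tendsto h1
      filter_upwards [eventually_r] with r hr
      exact (one_sub_iff _).1 (hS.2 _ (dil_mem ⟨hr.1, hr.2⟩ hζ)) x
    have heq : nsq (g ζ *ᵥ x) = nsq x := le_antisymm hle hcon
    have hpos : 0 < nsq x := lt_of_le_of_ne (nsq_nonneg x) fun h => hx (nsq_eq_zero h.symm)
    set c : ℂ := (((Real.sqrt (nsq x))⁻¹ : ℝ) : ℂ) with hc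
    have hcn : ‖c‖ ^ 2 = (nsq x)⁻¹ := by
      rw [hc, Complex.norm_real, Real.norm_eq_abs, sq_abs, inv_pow, Real.sq_sqrt hpos.le]
    have h1 : nsq (c • x) = 1 := by
      rw [nsq_smul, hcn, inv_mul_cancel₀ hpos.ne']
    have h2 : nsq (-(g ζ *ᵥ (c • x))) = 1 := by
      have : -(g ζ *ᵥ (c • x)) = (-c) • (g ζ *ᵥ x) := by rw [mulVec_smul, neg_smul]
      rw [this, nsq_smul, norm_neg, hcn, heq, inv_mul_cancel₀ hpos.ne']
    obtain ⟨C, hC⟩ := contact_bound hga hζ (c • x)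
    exact hB hζ h1 h2 hgd hC hW
  · rintro ⟨hP, hpd⟩
    obtain ⟨ρ, hρ0, hρ1, hρ⟩ := uniform_strict hga fun z hz => (posDef_iff _).1 (hpd z hz)
    have hin := strict_inside hga hρ0 hρ
    rw [Pool.Agent.H2RJ.kappa_lr_iff g, kappa_arov g]
    refine ⟨⟨⟨hgd, fun z hz => (one_sub_iff _).2 fun y => ?_⟩, hP, logDet_of_strict hga hpd⟩, ?_⟩
    · refine (hin z hz y).trans ?_
      have h1 : ρ ^ 2 ≤ 1 := by nlinarith
      have h2 := nsq_nonneg y
      nlinarith
    · rintro S hS ⟨g', hg', hid⟩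
      exact hA hS hg' hρ0 hρ1 hgd hin hid

end Pool.Agent.RegK
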