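import Pool.Agent.RegK.Kappa

open Filter Topology Complex MeasureTheory Set Metric Matrix
open scoped Real ENNReal NNReal ComplexOrder

namespace Pool.Agent.RegK

open Pool.Agent.RegJ

set_option linter.unusedSectionVars false

variable {m n : Type*} [Fintype m] [DecidableEq m] [Fintype n] [DecidableEq n]

lemma adj_bound (k : Type*) [Fintype k] [DecidableEq k] :
    ∃ C : ℝ, ∀ A B : Matrix k k ℂ, (∀ i j, ‖A i j‖ ≤ 1) → (∀ i j, ‖B i j‖ ≤ 1) →
      (∀ i j, ‖(A * B.adjugate) i j‖ ≤ C) ∧ ‖B.det‖ ≤ C := by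
  set K : Set (Matrix k k ℂ) := Set.univ.pi fun _ : k => Set.univ.pi fun _ : k =>
      closedBall (0 : ℂ) 1 with hKdef
  have hK : IsCompact K :=
    isCompact_univ_pi fun _ => isCompact_univ_pi fun _ => isCompact_closedBall _ _
  have h1 : ∀ p : k × k, ∃ C : ℝ, ∀ x ∈ K ×ˢ K,
      ‖(fun x : Matrix k k ℂ × Matrix k k ℂ => (x.1 * x.2.adjugate) p.1 p.2) x‖ ≤ C := by
    intro p
    refine (hK.prod hK).exists_bound_of_continuousOn (Continuous.continuousOn ?_)
    exact (continuous_fst.matrix_mul (Continuous.matrix_adjugate continuous_snd)).matrix_elem _ _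
  choose C hC using h1
  obtain ⟨C', hC'⟩ := hK.exists_bound_of_continuousOn (f := fun x => Matrix.det x)
    (Continuous.continuousOn continuous_id.matrix_det)
  refine ⟨max (∑ p, |C p|) C', fun A B hA hB => ⟨fun i j => ?_, ?_⟩⟩
  · refine (hC (i, j) (A, B) ⟨?_, ?_⟩).trans ?_
    · exact fun a _ b _ => by simpa using hA a b
    · exact fun a _ b _ => by simpa using hB a b
    · refine le_trans ?_ (le_max_left _ _)
      exact (le_abs_self _).trans (Finset.single_le_sum (f := fun p => |C p|)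
        (fun _ _ => abs_nonneg _) (Finset.mem_univ (i, j)))
  · exact (hC' B fun a _ b _ => by simpa using hB a b).trans (le_max_right _ _)

/-- If `S` is A-singular and `W ∈ 𝒰(p,q)` has the same `κ`, then `S` is a right divisor of `W`. -/
theorem divisor {S W : ℂ → Matrix (m ⊕ n) (m ⊕ n) ℂ} (hS : ASingular S) (hW : JInner W)
    {g : ℂ → Matrix n m ℂ} (hSg : IsKappa S g) (hWg : IsKappa W g) :
    JInner (fun z => W z * (S z)⁻¹) := by
  obtain ⟨h, G, hd, hG, hb1, hGb, hne, hWG⟩ := hW.boundedType.normalise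
  obtain ⟨gg, hgm, hgi, hg0, hgb⟩ := log_integrable hd hb1 hne
  set V : ℂ → Matrix (m ⊕ n) (m ⊕ n) ℂ := fun z => (S z)⁻¹ with hV
  have hSa : ∀ z ∈ disc, AnalyticPt S z := analyticPt_iff.1 fun i k => (hS.smirnov i k).1
  have hVa : ∀ z ∈ disc, AnalyticPt V z := analyticPt_iff.1 fun i k => (hS.smirnov_inv i k).1
  have hSm : MajM S := fun i k => (hS.smirnov i k).maj
  have hVm : MajM V := fun i k => (hS.smirnov_inv i k).maj
  have hSdet : DifferentiableOn ℂ (fun z => (S z).det) disc := fun z hz =>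
    (hSa z hz).det.differentiableAt.differentiableWithinAt
  have hSdne : ∃ z ∈ disc, (S z).det ≠ 0 := by
    obtain ⟨z, hz, -, h0⟩ := hS.jInner.det_ne_zero
    exact ⟨z, hz, h0⟩
  have hSV : ∀ z ∈ disc, S z * V z = 1 := by
    intro z hz
    apply eq_of_ev (φ := fun z => S z * V z) (ψ := fun _ => 1)
      (continuousAt_entries ((hSa z hz).mul (hVa z hz))) continuousAt_const
    filter_upwards [ev_ne hSdet hSdne hz] with y hy
    exact mul_nonsing_inv _ (isUnit_iff_ne_zero.2 hy.2)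
  have hSu : ∀ z ∈ disc, IsUnit (S z).det := fun z hz => isUnit_det_of_right_inverse (hSV z hz)
  have hSC : ∀ z ∈ disc, JC (S z) := fun z hz =>
    (jc_iff _).1 (hS.jInner.contractive z hz (hSa z hz))
  have hWa : ∀ z ∈ disc, h z ≠ 0 → AnalyticPt W z := fun z hz h0 =>
    repr_analytic hd hG hWG hz h0
  have hWC : ∀ z ∈ disc, h z ≠ 0 → JC (W z) := fun z hz h0 =>
    (jc_iff _).1 (hW.contractive z hz (hWa z hz h0))
  set D : ℂ → Matrix (m ⊕ n) (m ⊕ n) ℂ := fun z => W z * V z with hD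
  have hDa : ∀ z ∈ disc, h z ≠ 0 → AnalyticPt D z := fun z hz h0 =>
    (hWa z hz h0).mul (hVa z hz)
  have hblk : ∀ z ∈ disc, h z ≠ 0 → (D z).toBlocks₂₁ = 0 ∧
      (D z).toBlocks₂₂ = (W z).toBlocks₂₂ * ((S z).toBlocks₂₂)⁻¹ ∧
      (D z).toBlocks₁₁ = s11 (W z) * (V z).toBlocks₁₁ := fun z hz h0 =>
    blocks_D (hWC z hz h0).isUnit22 (hSC z hz).isUnit22 (hSV z hz)
      (hWg.2 z hz (hWa z hz h0)) (hSg.2 z hz (hSa z hz))
  -- boundary values
  have hbdry : ∀ᵐ ζ ∂σ, ∃ (L L0 S0 : Matrix (m ⊕ n) (m ⊕ n) ℂ) (H : ℂ),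
      JU L ∧ JU L0 ∧ JU S0 ∧ L.toBlocks₂₁ = 0 ∧ HasBdryValue D ζ L ∧ HasBdryValue W ζ L0 ∧
      HasBdryValue S ζ S0 ∧ HasBdryValue V ζ S0⁻¹ ∧ HasBdryValue h ζ H ∧
      (∀ᶠ r : ℝ in 𝓝[<] 1, (r : ℂ) * ζ ∈ disc ∧ h (r * ζ) ≠ 0) := by
    filter_upwards [hW.boundary, hgb, hS.jInner.boundary, ae_norm] with ζ h1 h2 h4 hn
    obtain ⟨L0, hL0, hLU0⟩ := h1
    obtain ⟨H, hH, hH0, -⟩ := h2
    obtain ⟨S0, hS0, hSU⟩ := h4
    have hSU' : JU S0 := hSU
    have hLU' : JU L0 := hLU0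
    have hV0 : HasBdryValue V ζ S0⁻¹ := tendsto_minv hS0 hSU'.isUnit.ne_zero
    have hDU : JU (L0 * S0⁻¹) := hLU'.mul hSU'.inv
    have hD0 : HasBdryValue D ζ (L0 * S0⁻¹) := tendsto_mmul hL0 hV0
    have hev : ∀ᶠ r : ℝ in 𝓝[<] 1, (r : ℂ) * ζ ∈ disc ∧ h (r * ζ) ≠ 0 := by
      filter_upwards [eventually_r, hH.eventually_ne hH0] with r hr h0
      exact ⟨dil_mem hr hn, h0⟩
    refine ⟨L0 * S0⁻¹, L0, S0, H, hDU, hLU', hSU', ?_, hD0, hL0, hS0, hV0, hH, hev⟩
    refine tendsto_nhds_unique ((tendsto_b21 hD0).congr' ?_) tendsto_const_nhds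
    filter_upwards [hev] with r hr
    exact (hblk _ hr.1 hr.2).1
  -- the block `12` of `D` vanishes
  have h12 : ∀ z ∈ disc, h z ≠ 0 → (D z).toBlocks₁₂ = 0 := by
    set P : ℂ → Matrix m n ℂ := fun z => (G z * V z).toBlocks₁₂ with hP
    have hPa : ∀ z ∈ disc, AnalyticPt P z := fun z hz => ((hG z hz).mul (hVa z hz)).b12
    have hPm : MajM P := fun i k => (MajM.mul (MajM.of_bound hGb) hVm) _ _
    have hP0 : ∀ C : ℝ, 0 < C → ∀ z ∈ disc, ∀ i k, ‖P z i k‖ ≤ C := by
      intro C hC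
      apply maj_bounded_entry hPa hPm hC
      filter_upwards [hbdry] with ζ hζ
      obtain ⟨L, L0, S0, H, hL, -, -, h21, hD0, -, -, -, hH, hev⟩ := hζ
      refine ⟨0, ?_, fun i k => by simpa using hC.le⟩
      have h5 : Tendsto (fun r : ℝ => (h (r * ζ) • D (r * ζ)).toBlocks₁₂) (𝓝[<] 1)
          (𝓝 (H • L).toBlocks₁₂) := tendsto_b12 (Tendsto.smul hH hD0)
      have h6 : (H • L).toBlocks₁₂ = 0 := by
        have := (ju_blocks hL h21).1
        ext i j
        have := congrFun (congrFun this i) j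
        simp only [toBlocks₁₂, of_apply, Matrix.zero_apply] at this
        simp [toBlocks₁₂, this]
      rw [h6] at h5
      refine h5.congr' ?_
      filter_upwards [hev] with r hr
      simp only [hP, hD]
      rw [hWG _ hr.1 hr.2, smul_mul, smul_smul, mul_inv_cancel₀ hr.2, one_smul]
    intro z hz h0
    have hPz : P z = 0 := by
      ext i k
      have : ‖P z i k‖ ≤ 0 := le_of_forall_pos_le_add fun ε hε => by
        rw [zero_add]; exact hP0 ε hε z hz i k
      simpa using this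
    have hDz : D z = (h z)⁻¹ • (G z * V z) := by
      simp only [hD]
      rw [hWG z hz h0, smul_mul]
    ext i k
    have := congrFun (congrFun hPz i) k
    simp only [hP, toBlocks₁₂, of_apply, Matrix.zero_apply] at this
    simp [hDz, toBlocks₁₂, this]
  -- the block `11` is contractive
  obtain ⟨s, hsa, hse, hsb⟩ := removableM (k := fun z => s11 (W z)) (C := 1) hd hne
    (fun z hz h0 => ((hWa z hz h0).b11).add (((hWa z hz h0).b12.mul
      ((((hWa z hz h0).b22).inv (hWC z hz h0).isUnit22.ne_zero).mul (hWa z hz h0).b21)).neg))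
    (fun z hz h0 i j => entry_le_one (s11_contr (hWC z hz h0)) i j)
  have hc11 : ∀ z ∈ disc, ∀ y, nsq ((s z * (V z).toBlocks₁₁) *ᵥ y) ≤ nsq y := by
    apply maj_bounded_form (fun z hz => (hsa z hz).mul (hVa z hz).b11)
      (MajM.mul (MajM.of_bound hsb) fun i k => hVm _ _)
    filter_upwards [hbdry] with ζ hζ
    obtain ⟨L, L0, S0, H, hL, -, -, h21, hD0, -, -, -, hH, hev⟩ := hζ
    refine ⟨L.toBlocks₁₁, (tendsto_b11 hD0).congr' ?_, fun y => ((ju_blocks hL h21).2.1 y).le⟩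
    filter_upwards [hev] with r hr
    rw [(hblk _ hr.1 hr.2).2.2, hse _ hr.1 hr.2]
  -- the inverse of the block `22` is contractive
  obtain ⟨w, hwa, hwe, hwb⟩ := removableM (k := fun z => ((W z).toBlocks₂₂)⁻¹) (C := 1) hd hne
    (fun z hz h0 => ((hWa z hz h0).b22).inv (hWC z hz h0).isUnit22.ne_zero)
    (fun z hz h0 i j => entry_le_one (inv22_contr (hWC z hz h0)) i j)
  have hc22 : ∀ z ∈ disc, ∀ y, nsq (((S z).toBlocks₂₂ * w z) *ᵥ y) ≤ nsq y := by
    apply maj_bounded_form (fun z hz => (hSa z hz).b22.mul (hwa z hz))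
      (MajM.mul (fun i k => hSm _ _) (MajM.of_bound hwb))
    filter_upwards [hbdry] with ζ hζ
    obtain ⟨L, L0, S0, H, hL, hL0U, hS0U, h21, hD0, hL0, hS0, -, hH, hev⟩ := hζ
    have hu0 : IsUnit (L0.toBlocks₂₂).det := hL0U.jc.isUnit22
    have e1 : Tendsto (fun r : ℝ => (S (r * ζ)).toBlocks₂₂ * ((W (r * ζ)).toBlocks₂₂)⁻¹) (𝓝[<] 1)
        (𝓝 (S0.toBlocks₂₂ * L0.toBlocks₂₂⁻¹)) :=
      tendsto_mmul (tendsto_b22 hS0) (tendsto_minv (tendsto_b22 hL0) hu0.ne_zero)
    have e2 : L.toBlocks₂₂ * (S0.toBlocks₂₂ * L0.toBlocks₂₂⁻¹) = 1 := by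
      refine tendsto_nhds_unique (tendsto_mmul (tendsto_b22 hD0) e1)
        (tendsto_const_nhds.congr' ?_)
      filter_upwards [hev] with r hr
      have u1 := (hSC _ hr.1).isUnit22
      have u2 := (hWC _ hr.1 hr.2).isUnit22
      rw [(hblk _ hr.1 hr.2).2.1, Matrix.mul_assoc, ← Matrix.mul_assoc _ (S _).toBlocks₂₂,
        nonsing_inv_mul _ u1, Matrix.one_mul, mul_nonsing_inv _ u2]
    refine ⟨_, e1.congr' ?_, fun y => ?_⟩
    · filter_upwards [hev] with r hr
      rw [hwe _ hr.1 hr.2]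
    · rw [← (ju_blocks hL h21).2.2, mulVec_mulVec, e2, one_mulVec]
  have hDC : ∀ z ∈ disc, h z ≠ 0 → JC (D z) := by
    intro z hz h0
    obtain ⟨b21, b22, b11⟩ := hblk z hz h0
    refine jc_diag (h12 z hz h0) b21 (fun x => ?_) (fun y => ?_)
    · rw [b11, ← hse z hz h0]
      exact hc11 z hz x
    · have u1 := (hSC z hz).isUnit22
      have u2 := (hWC z hz h0).isUnit22
      have e3 : ((S z).toBlocks₂₂ * w z) * (D z).toBlocks₂₂ = 1 := by
        rw [b22, hwe z hz h0, Matrix.mul_assoc, ← Matrix.mul_assoc _ (W z).toBlocks₂₂,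
          nonsing_inv_mul _ u2, Matrix.one_mul, mul_nonsing_inv _ u1]
      have := hc22 z hz ((D z).toBlocks₂₂ *ᵥ y)
      rwa [mulVec_mulVec, e3, one_mulVec] at this
  refine ⟨?_, ?_, ?_, ?_⟩
  · -- bounded type
    obtain ⟨h', G', hd', hG', hb1', hGb', hne', hSG'⟩ := hS.jInner.boundedType.normalise
    obtain ⟨C, hC⟩ := adj_bound (m ⊕ n)
    have hC0 : 0 ≤ C := (norm_nonneg _).trans (hC 0 0 (by simp) (by simp)).2
    have hp : ∃ z ∈ disc, h z ≠ 0 ∧ h' z ≠ 0 := by
      obtain ⟨z, hz, h0⟩ := hne'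
      have := (ev_ne hd hne hz).and ((ne_nhds hd' hz h0).filter_mono nhdsWithin_le_nhds)
      obtain ⟨y, hy1, hy2⟩ := this.exists
      exact ⟨y, hy1.1, hy1.2, hy2.2⟩
    refine ⟨fun z => h z * (G' z).det, fun z => h' z • (G z * (G' z).adjugate), C, ?_, ?_, ?_,
      ?_, ?_⟩
    · exact hd.mul fun z hz => (hG' z hz).det.differentiableAt.differentiableWithinAt
    · rw [analyticPt_iff]
      intro z hz
      exact AnalyticPt.smul (hd'.analyticAt (isOpen_ball.mem_nhds hz))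
        ((hG z hz).mul (hG' z hz).adjugate)
    · intro z hz
      have h1 := hC (G z) (G' z) (hGb z hz) (hGb' z hz)
      constructor
      · rw [norm_mul]
        calc ‖h z‖ * ‖(G' z).det‖ ≤ 1 * C :=
              mul_le_mul (hb1 z hz) h1.2 (norm_nonneg _) zero_le_one
          _ = C := one_mul C
      · intro i k
        change ‖(h' z • (G z * (G' z).adjugate)) i k‖ ≤ C
        rw [Matrix.smul_apply, smul_eq_mul, norm_mul]
        calc ‖h' z‖ * ‖(G z * (G' z).adjugate) i k‖ ≤ 1 * C :=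
              mul_le_mul (hb1' z hz) (h1.1 i k) (norm_nonneg _) zero_le_one
          _ = C := one_mul C
    · obtain ⟨z, hz, h0, h0'⟩ := hp
      refine ⟨z, hz, mul_ne_zero h0 ?_⟩
      have e : G' z = h' z • S z := by
        rw [hSG' z hz h0', smul_smul, mul_inv_cancel₀ h0', one_smul]
      rw [e, det_smul]
      exact mul_ne_zero (pow_ne_zero _ h0') (hSu z hz).ne_zero
    · intro z hz h0
      have h1 : h z ≠ 0 := left_ne_zero_of_mul h0
      have h2 : (G' z).det ≠ 0 := right_ne_zero_of_mul h0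
      have e : G' z = h' z • S z := by
        apply eq_of_ev (φ := G') (ψ := fun z => h' z • S z) (continuousAt_entries (hG' z hz))
          (continuousAt_entries (AnalyticPt.smul (hd'.analyticAt (isOpen_ball.mem_nhds hz))
            (hSa z hz)))
        filter_upwards [ev_ne hd' hne' hz] with y hy
        rw [hSG' y hy.1 hy.2, smul_smul, mul_inv_cancel₀ hy.2, one_smul]
      have e2 : V z = h' z • ((G' z).det)⁻¹ • (G' z).adjugate := by
        have : S z * (h' z • ((G' z).det)⁻¹ • (G' z).adjugate) = 1 := by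
          rw [Matrix.mul_smul, ← smul_mul, ← e, Matrix.mul_smul, mul_adjugate, smul_smul,
            inv_mul_cancel₀ h2, one_smul]
        exact inv_eq_right_inv this
      change W z * V z = _
      rw [e2, hWG z hz h1, smul_mul, Matrix.mul_smul, Matrix.mul_smul, smul_smul, smul_smul,
        smul_smul, mul_inv]
      congr 1
      ring
  · obtain ⟨z, hz, ha, hdet⟩ := hW.det_ne_zero
    have h1 : ∀ᶠ y in 𝓝[≠] z, (W y).det ≠ 0 :=
      (ha.det.continuousAt.eventually_ne hdet).filter_mono nhdsWithin_le_nhds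
    obtain ⟨y, hy1, hy2⟩ := ((ev_ne hd hne hz).and h1).exists
    refine ⟨y, hy1.1, hDa y hy1.1 hy1.2, ?_⟩
    change (W y * V y).det ≠ 0
    rw [det_mul]
    refine mul_ne_zero hy2 ?_
    intro h0
    have := congrArg Matrix.det (hSV y hy1.1)
    rw [det_mul, h0, mul_zero, det_one] at this
    exact zero_ne_one this
  · intro z hz ha
    rw [jc_iff]
    intro x y
    have hc := continuousAt_entries ha
    have c11 : ContinuousAt (fun w => (D w).toBlocks₁₁ *ᵥ x + (D w).toBlocks₁₂ *ᵥ y) z := by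
      have := hc
      unfold ContinuousAt at this ⊢
      have k1 := tendsto_b11 this
      have k2 := tendsto_b12 this
      have e1 : Continuous fun M : Matrix m m ℂ => M *ᵥ x := by fun_prop
      have e2 : Continuous fun M : Matrix m n ℂ => M *ᵥ y := by fun_prop
      exact ((e1.tendsto _).comp k1).add ((e2.tendsto _).comp k2)
    have c22 : ContinuousAt (fun w => (D w).toBlocks₂₁ *ᵥ x + (D w).toBlocks₂₂ *ᵥ y) z := by
      have := hc
      unfold ContinuousAt at this ⊢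
      have k1 := tendsto_b21 this
      have k2 := tendsto_b22 this
      have e1 : Continuous fun M : Matrix n m ℂ => M *ᵥ x := by fun_prop
      have e2 : Continuous fun M : Matrix n n ℂ => M *ᵥ y := by fun_prop
      exact ((e1.tendsto _).comp k1).add ((e2.tendsto _).comp k2)
    have n1 : Continuous fun v : m → ℂ => nsq v := by unfold nsq; fun_prop
    have n2 : Continuous fun v : n → ℂ => nsq v := by unfold nsq; fun_prop
    refine le_of_ev (φ := fun w => nsq ((D w).toBlocks₁₁ *ᵥ x + (D w).toBlocks₁₂ *ᵥ y) + nsq y)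
      (ψ := fun w => nsq x + nsq ((D w).toBlocks₂₁ *ᵥ x + (D w).toBlocks₂₂ *ᵥ y))
      ((n1.continuousAt.comp c11).add continuousAt_const)
      (continuousAt_const.add (n2.continuousAt.comp c22)) ?_
    filter_upwards [ev_ne hd hne hz] with w hw
    exact hDC w hw.1 hw.2 x y
  · filter_upwards [hbdry] with ζ hζ
    obtain ⟨L, L0, S0, H, hL, -, -, -, hD0, -, -, -, -, -⟩ := hζ
    exact ⟨L, hD0, hL⟩

/-- `κ_S` of a non-constant A-singular `S` is not `κ_W` of a left regular `W`. -/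
theorem not_kappa {S : ℂ → Matrix (m ⊕ n) (m ⊕ n) ℂ} (hS : ASingular S)
    (hc : ¬ ∃ C, ∀ z ∈ disc, S z = C) {g : ℂ → Matrix n m ℂ} (hg : IsKappa S g) :
    ¬ ∃ W : ℂ → Matrix (m ⊕ n) (m ⊕ n) ℂ, LeftRegular W ∧ IsKappa W g := by
  rintro ⟨W, hW, hWg⟩
  exact hc (hW.regular S hS (divisor hS hW.jInner hg hWg))

end Pool.Agent.RegK
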