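import Pool.Agent.RegK.Closed
import Pool.Agent.H2RJ.Contact
import Pool.Agent.H99K.Strict

open Filter Topology Complex MeasureTheory Set Metric Matrix
open scoped Real ENNReal NNReal ComplexOrder

namespace Pool.Agent.RegK

open Pool.Agent.RegJ

set_option linter.unusedSectionVars false

variable {m n : Type*} [Fintype m] [DecidableEq m] [Fintype n] [DecidableEq n]

/-- The answer for `g` analytic on the closed disc. -/
theorem closed_iff {g : ℂ → Matrix n m ℂ} (hga : ∀ z : ℂ, ‖z‖ ≤ 1 → AnalyticPt g z) :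
    (∃ W : ℂ → Matrix (m ⊕ n) (m ⊕ n) ℂ, LeftRegular W ∧ IsKappa W g) ↔
      HasPseudocontinuation g ∧ ∀ ζ : ℂ, ‖ζ‖ = 1 → (1 - (g ζ)ᴴ * g ζ).PosDef :=
  closed_iff_of
    (fun hS hg' h0 h1 hgd hgb hid => Pool.Agent.H99K.const_of_strict hS hgd hg' h0 h1 hgb hid)
    (fun hlam hx hy hg hC => Pool.Agent.H2RJ.no_contact hlam hx hy hg hC) hga

end Pool.Agent.RegK
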