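import Pool.Agent.RegJ.ArovConv

open Filter Topology Complex MeasureTheory Set Metric Matrix
open scoped Real ENNReal NNReal ComplexOrder

namespace Pool.Agent.RegK

open Pool.Agent.RegJ

set_option linter.unusedSectionVars false

variable {m n : Type*} [Fintype m] [DecidableEq m] [Fintype n] [DecidableEq n]

/-- `g = κ_W = W₂₂⁻¹ W₂₁` as functions on the disc: `g` is holomorphic and the identity
holds at the points of analyticity of `W`. -/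
def IsKappa (W : ℂ → Matrix (m ⊕ n) (m ⊕ n) ℂ) (g : ℂ → Matrix n m ℂ) : Prop :=
  (∀ i k, DifferentiableOn ℂ (fun z => g z i k) disc) ∧
  ∀ z ∈ disc, AnalyticPt W z → g z = ((W z).toBlocks₂₂)⁻¹ * (W z).toBlocks₂₁

lemma mul_blocks11 (A B : Matrix (m ⊕ n) (m ⊕ n) ℂ) :
    (A * B).toBlocks₁₁ = A.toBlocks₁₁ * B.toBlocks₁₁ + A.toBlocks₁₂ * B.toBlocks₂₁ := by
  conv_lhs => rw [← fromBlocks_toBlocks A, ← fromBlocks_toBlocks B, fromBlocks_multiply]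
  rw [toBlocks_fromBlocks₁₁]

lemma mul_blocks21 (A B : Matrix (m ⊕ n) (m ⊕ n) ℂ) :
    (A * B).toBlocks₂₁ = A.toBlocks₂₁ * B.toBlocks₁₁ + A.toBlocks₂₂ * B.toBlocks₂₁ := by
  conv_lhs => rw [← fromBlocks_toBlocks A, ← fromBlocks_toBlocks B, fromBlocks_multiply]
  rw [toBlocks_fromBlocks₂₁]

/-- the block `s₁₁` of the Potapov–Ginzburg transform -/
noncomputable def s11 (W : Matrix (m ⊕ n) (m ⊕ n) ℂ) : Matrix m m ℂ :=
  W.toBlocks₁₁ + -(W.toBlocks₁₂ * (W.toBlocks₂₂⁻¹ * W.toBlocks₂₁))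

lemma blocks_D {W S V : Matrix (m ⊕ n) (m ⊕ n) ℂ} {g : Matrix n m ℂ}
    (hW : IsUnit W.toBlocks₂₂.det) (hS : IsUnit S.toBlocks₂₂.det) (hSV : S * V = 1)
    (gW : g = W.toBlocks₂₂⁻¹ * W.toBlocks₂₁) (gS : g = S.toBlocks₂₂⁻¹ * S.toBlocks₂₁) :
    (W * V).toBlocks₂₁ = 0 ∧ (W * V).toBlocks₂₂ = W.toBlocks₂₂ * S.toBlocks₂₂⁻¹ ∧
      (W * V).toBlocks₁₁ = s11 W * V.toBlocks₁₁ := by
  have eW : W.toBlocks₂₁ = W.toBlocks₂₂ * g := by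
    rw [gW, ← Matrix.mul_assoc, mul_nonsing_inv _ hW, Matrix.one_mul]
  have eS : S.toBlocks₂₁ = S.toBlocks₂₂ * g := by
    rw [gS, ← Matrix.mul_assoc, mul_nonsing_inv _ hS, Matrix.one_mul]
  have h21 : S.toBlocks₂₂ * (g * V.toBlocks₁₁ + V.toBlocks₂₁) = 0 := by
    have h := mul_blocks21 S V
    rw [hSV, eS, Matrix.mul_assoc, ← Matrix.mul_add] at h
    rw [← h, ← fromBlocks_one, toBlocks_fromBlocks₂₁]
  have h22 : S.toBlocks₂₂ * (g * V.toBlocks₁₂ + V.toBlocks₂₂) = 1 := by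
    have h := mul_blocks22 S V
    rw [hSV, eS, Matrix.mul_assoc, ← Matrix.mul_add] at h
    rw [← h, ← fromBlocks_one, toBlocks_fromBlocks₂₂]
  have k21 : g * V.toBlocks₁₁ + V.toBlocks₂₁ = 0 := by
    have := congrArg (fun X => S.toBlocks₂₂⁻¹ * X) h21
    simpa [← Matrix.mul_assoc, nonsing_inv_mul _ hS] using this
  have k22 : g * V.toBlocks₁₂ + V.toBlocks₂₂ = S.toBlocks₂₂⁻¹ := (inv_eq_right_inv h22).symm
  refine ⟨?_, ?_, ?_⟩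
  · rw [mul_blocks21, eW, Matrix.mul_assoc, ← Matrix.mul_add, k21, Matrix.mul_zero]
  · rw [mul_blocks22, eW, Matrix.mul_assoc, ← Matrix.mul_add, k22]
  · have k21' : V.toBlocks₂₁ = -(g * V.toBlocks₁₁) := (neg_eq_of_add_eq_zero_right k21).symm
    rw [mul_blocks11, k21', s11, ← gW, Matrix.add_mul, Matrix.neg_mul, Matrix.mul_neg,
      Matrix.mul_assoc]

lemma s11_contr {W : Matrix (m ⊕ n) (m ⊕ n) ℂ} (hW : JC W) (x : m → ℂ) :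
    nsq (s11 W *ᵥ x) ≤ nsq x := by
  have h1 := hW x (-((W.toBlocks₂₂⁻¹ * W.toBlocks₂₁) *ᵥ x))
  have h2 : W.toBlocks₂₁ *ᵥ x + W.toBlocks₂₂ *ᵥ (-((W.toBlocks₂₂⁻¹ * W.toBlocks₂₁) *ᵥ x)) = 0 := by
    rw [mulVec_neg, mulVec_mulVec, ← Matrix.mul_assoc, mul_nonsing_inv _ hW.isUnit22,
      Matrix.one_mul, add_neg_cancel]
  have h3 : W.toBlocks₁₁ *ᵥ x + W.toBlocks₁₂ *ᵥ (-((W.toBlocks₂₂⁻¹ * W.toBlocks₂₁) *ᵥ x))
      = s11 W *ᵥ x := by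
    rw [s11, add_mulVec, neg_mulVec, mulVec_neg, mulVec_mulVec]
  rw [h2, h3, nsq_zero, add_zero] at h1
  linarith [nsq_nonneg (-((W.toBlocks₂₂⁻¹ * W.toBlocks₂₁) *ᵥ x))]

lemma inv22_contr {W : Matrix (m ⊕ n) (m ⊕ n) ℂ} (hW : JC W) (y : n → ℂ) :
    nsq (W.toBlocks₂₂⁻¹ *ᵥ y) ≤ nsq y := by
  have h1 := hW.le22 (W.toBlocks₂₂⁻¹ *ᵥ y)
  rw [mulVec_mulVec, mulVec_mulVec, mul_nonsing_inv _ hW.isUnit22, one_mulVec] at h1
  linarith [nsq_nonneg ((W.toBlocks₁₂ * W.toBlocks₂₂⁻¹) *ᵥ y)]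

lemma entry_le_one {a b : Type*} [Fintype a] [Fintype b] [DecidableEq b] {A : Matrix a b ℂ}
    (h : ∀ y, nsq (A *ᵥ y) ≤ nsq y) (i : a) (k : b) : ‖A i k‖ ≤ 1 := by
  apply entry_le_of_contr zero_le_one
  intro k
  have := h (Pi.single k 1)
  rw [nsq_single] at this
  simpa using this

lemma ju_blocks {L : Matrix (m ⊕ n) (m ⊕ n) ℂ} (hL : JU L) (h21 : L.toBlocks₂₁ = 0) :
    L.toBlocks₁₂ = 0 ∧ (∀ x, nsq (L.toBlocks₁₁ *ᵥ x) = nsq x) ∧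
      ∀ y, nsq (L.toBlocks₂₂ *ᵥ y) = nsq y := by
  have h11 : ∀ x, nsq (L.toBlocks₁₁ *ᵥ x) = nsq x := by
    intro x
    have := hL.eq x 0
    simpa [h21] using this
  have hu : IsUnit (L.toBlocks₁₁).det := isUnit_of_nsq_le fun y => (h11 y).ge
  have h12 : ∀ y, L.toBlocks₁₂ *ᵥ y = 0 := by
    intro y
    have e1 := hL.eq (-(L.toBlocks₁₁⁻¹ *ᵥ (L.toBlocks₁₂ *ᵥ y))) y
    have e2 := hL.eq22 y
    have e3 : L.toBlocks₁₁ *ᵥ (-(L.toBlocks₁₁⁻¹ *ᵥ (L.toBlocks₁₂ *ᵥ y))) + L.toBlocks₁₂ *ᵥ y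
        = 0 := by
      rw [mulVec_neg, mulVec_mulVec, mul_nonsing_inv _ hu, one_mulVec, neg_add_cancel]
    rw [e3, h21, zero_mulVec, zero_add, nsq_zero, zero_add] at e1
    apply nsq_eq_zero
    have := nsq_nonneg (-(L.toBlocks₁₁⁻¹ *ᵥ (L.toBlocks₁₂ *ᵥ y)))
    have := nsq_nonneg (L.toBlocks₁₂ *ᵥ y)
    linarith
  have h12' : L.toBlocks₁₂ = 0 := by
    ext i j
    have := congrFun (h12 (Pi.single j 1)) i
    simpa using this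
  refine ⟨h12', h11, fun y => ?_⟩
  have := hL.eq22 y
  rw [h12', zero_mulVec, nsq_zero, zero_add] at this
  exact this.symm

lemma jc_diag {D : Matrix (m ⊕ n) (m ⊕ n) ℂ} (h12 : D.toBlocks₁₂ = 0) (h21 : D.toBlocks₂₁ = 0)
    (h11 : ∀ x, nsq (D.toBlocks₁₁ *ᵥ x) ≤ nsq x) (h22 : ∀ y, nsq y ≤ nsq (D.toBlocks₂₂ *ᵥ y)) :
    JC D := by
  intro x y
  rw [h12, h21, zero_mulVec, zero_mulVec, add_zero, zero_add]
  exact add_le_add (h11 x) (h22 y)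

/-- `κ` of `W · diag (β I, I)` is `β κ`. -/
theorem isKappa_mul_dg {W : ℂ → Matrix (m ⊕ n) (m ⊕ n) ℂ} {β : ℂ → ℂ}
    (hβ : Inner β) (hβ0 : ∀ z, β z ≠ 0) {g : ℂ → Matrix n m ℂ} (hg : IsKappa W g) :
    IsKappa (fun z => W z * diagFactor m n (β z)) (fun z => β z • g z) := by
  refine ⟨fun i k => ?_, fun z hz ha => ?_⟩
  · simp only [Matrix.smul_apply, smul_eq_mul]
    exact hβ.diff.mul (hg.1 i k)
  · have hβa : AnalyticAt ℂ β z := hβ.diff.analyticAt (isOpen_ball.mem_nhds hz)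
    simp only
    rw [mul_dg_21, mul_dg_22, hg.2 z hz (analytic_cancel hβa hβ0 ha), Matrix.mul_smul]

end Pool.Agent.RegK
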