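import Pool.Agent.H2RJ.Clark

open Filter Topology Complex MeasureTheory Set Metric Matrix
open scoped Real ENNReal NNReal ComplexOrder

namespace Pool.Agent.RegK

open Pool.Agent.RegJ

set_option linter.unusedSectionVars false

variable {m n : Type*} [Fintype m] [DecidableEq m] [Fintype n] [DecidableEq n]

lemma nsq_one_of {x : m → ℂ} (hx : star x ⬝ᵥ x = 1) : nsq x = 1 := by
  rw [star_dot_self] at hx
  exact_mod_cast hx

/-- helper2's theorem `clark` with a positive semidefinite matrix as hypothesis -/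
theorem clark_psd {g : ℂ → Matrix n m ℂ} {s : ℂ → ℂ} {x : m → ℂ} {y : n → ℂ}
    (hx : star x ⬝ᵥ x = 1) (hy : star y ⬝ᵥ y = 1) (hd : DifferentiableOn ℂ s disc)
    (hs : ∀ z ∈ disc, 0 ≤ (s z).re)
    (hsb : ∀ᵐ ζ ∂circleMeasure, ∃ L, HasBdryValue s ζ L ∧ L.re = 0)
    (hsc : ¬ ∃ c, ∀ z ∈ disc, s z = c)
    (h : ∀ z ∈ disc, (1 - g z * (g z)ᴴ - ((2 * (s z).re : ℝ) : ℂ) •
      vecMulVec (g z *ᵥ x + y) (star (g z *ᵥ x + y))).PosSemidef) :
    ¬ ∃ W : ℂ → Matrix (m ⊕ n) (m ⊕ n) ℂ, LeftRegular W ∧ IsKappa W g := by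
  refine Pool.Agent.H2RJ.clark (nsq_one_of hx) (nsq_one_of hy) hd hs hsb hsc fun z hz a => ?_
  have h1 := (h z hz).dotProduct_mulVec_nonneg a
  set u := g z *ᵥ x + y with hu
  have e1 : star a ⬝ᵥ ((g z * (g z)ᴴ) *ᵥ a) = (nsq ((g z)ᴴ *ᵥ a) : ℂ) := by
    rw [← mulVec_mulVec]
    have := star_dot_conj (g z)ᴴ a ((g z)ᴴ *ᵥ a)
    rw [conjTranspose_conjTranspose] at this
    rw [this, star_dot_self]
  have e2 : star a ⬝ᵥ (vecMulVec u (star u) *ᵥ a) = ((‖star u ⬝ᵥ a‖ ^ 2 : ℝ) : ℂ) := by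
    rw [vecMulVec_mulVec]
    have h3 : star a ⬝ᵥ (MulOpposite.op (star u ⬝ᵥ a) • u) = (star a ⬝ᵥ u) * (star u ⬝ᵥ a) := by
      simp [dotProduct, Finset.sum_mul, mul_assoc]
    rw [h3, star_dot_comm a u, Complex.star_def, mul_comm, Complex.mul_conj,
      Complex.normSq_eq_norm_sq]
  have e3 : star a ⬝ᵥ ((1 - g z * (g z)ᴴ - ((2 * (s z).re : ℝ) : ℂ) •
      vecMulVec u (star u)) *ᵥ a)
      = ((nsq a - nsq ((g z)ᴴ *ᵥ a) - 2 * (s z).re * ‖star u ⬝ᵥ a‖ ^ 2 : ℝ) : ℂ) := by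
    rw [sub_mulVec, sub_mulVec, one_mulVec, smul_mulVec, dotProduct_sub, dotProduct_sub,
      dotProduct_smul, e1, e2, star_dot_self]
    push_cast
    simp only [smul_eq_mul]
  rw [e3, Complex.zero_le_real] at h1
  linarith

end Pool.Agent.RegK
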